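import Mathlib

set_option autoImplicit false

namespace Pool.Agent.Lib.MP_61e5a9_gt

open scoped ContDiff

lemma two_le_infty : (2 : WithTop ℕ∞) ≤ ∞ := by
  have h : ((2 : ℕ∞) : WithTop ℕ∞) ≤ ((⊤ : ℕ∞) : WithTop ℕ∞) := WithTop.coe_le_coe.2 le_top
  exact h

/-- Four-dimensional real space. -/
abbrev E := Fin 4 → ℝ

/-- The standard inner product of `ℝ⁴` as a continuous bilinear map. -/
noncomputable def ip : E →L[ℝ] E →L[ℝ] ℝ :=
  ∑ i, (ContinuousLinearMap.proj i : E →L[ℝ] ℝ).smulRight
    (ContinuousLinearMap.proj i : E →L[ℝ] ℝ)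

lemma ip_apply (p v : E) : ip p v = ∑ i, p i * v i := by
  simp [ip]

lemma ip_self (p : E) : ip p p = ∑ i, p i ^ 2 := by
  simp [ip_apply, sq]

lemma ip_comm (p v : E) : ip p v = ip v p := by
  simp only [ip_apply]
  exact Finset.sum_congr rfl fun i _ => mul_comm _ _

lemma ip_self_nonneg (p : E) : 0 ≤ ip p p := by
  rw [ip_self]; positivity

lemma eq_zero_of_ip_self (p : E) (h : ip p p = 0) : p = 0 := by
  rw [ip_self] at h
  funext i
  have := (Finset.sum_eq_zero_iff_of_nonneg (fun i _ => sq_nonneg (p i))).1 h i (Finset.mem_univ i)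
  simpa using this

/-- The exterior derivative of `α`. -/
noncomputable def om (α : E → E →L[ℝ] ℝ) (p u v : E) : ℝ :=
  fderiv ℝ α p u v - fderiv ℝ α p v u

/-- The derivative of the exterior derivative of `α`. -/
noncomputable def dom (α : E → E →L[ℝ] ℝ) (p x u v : E) : ℝ :=
  fderiv ℝ (fderiv ℝ α) p x u v - fderiv ℝ (fderiv ℝ α) p x v u

lemma om_add_left (α : E → E →L[ℝ] ℝ) (p u u' v : E) :
    om α p (u + u') v = om α p u v + om α p u' v := by
  simp [om]; ring

lemma om_add_right (α : E → E →L[ℝ] ℝ) (p u v v' : E) :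
    om α p u (v + v') = om α p u v + om α p u v' := by
  simp [om]; ring

lemma om_sub_left (α : E → E →L[ℝ] ℝ) (p u u' v : E) :
    om α p (u - u') v = om α p u v - om α p u' v := by
  simp [om]; ring

lemma om_sub_right (α : E → E →L[ℝ] ℝ) (p u v v' : E) :
    om α p u (v - v') = om α p u v - om α p u v' := by
  simp [om]; ring

lemma om_smul_left (α : E → E →L[ℝ] ℝ) (p u v : E) (c : ℝ) :
    om α p (c • u) v = c * om α p u v := by
  simp [om]; ring

lemma om_smul_right (α : E → E →L[ℝ] ℝ) (p u v : E) (c : ℝ) :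
    om α p u (c • v) = c * om α p u v := by
  simp [om]; ring

lemma om_neg_left (α : E → E →L[ℝ] ℝ) (p u v : E) :
    om α p (-u) v = - om α p u v := by
  simp [om]; ring

lemma om_swap (α : E → E →L[ℝ] ℝ) (p u v : E) : om α p v u = - om α p u v := by
  simp [om]

lemma om_self (α : E → E →L[ℝ] ℝ) (p u : E) : om α p u u = 0 := by
  simp [om]

lemma om_zero_left (α : E → E →L[ℝ] ℝ) (p u : E) : om α p 0 u = 0 := by
  simp [om]

lemma om_zero_right (α : E → E →L[ℝ] ℝ) (p u : E) : om α p u 0 = 0 := by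
  simp [om]

lemma dom_zero (α : E → E →L[ℝ] ℝ) (p u v : E) : dom α p 0 u v = 0 := by
  simp [dom]

lemma dom_swap (α : E → E →L[ℝ] ℝ) (p x u v : E) : dom α p x v u = - dom α p x u v := by
  simp [dom]

/-- `d(dα) = 0`. -/
lemma dom_closed {α : E → E →L[ℝ] ℝ} (hα : ContDiff ℝ ∞ α) (p x u v : E) :
    dom α p x u v + dom α p u v x + dom α p v x u = 0 := by
  have hs : IsSymmSndFDerivAt ℝ α p := by
    apply (hα.contDiffAt (x := p)).isSymmSndFDerivAt
    have h2 : (2 : WithTop ℕ∞) ≤ ∞ := two_le_infty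
    simpa using h2
  have h1 := hs x u
  have h2 := hs u v
  have h3 := hs v x
  simp only [dom]
  rw [h1, h2, h3]
  ring

lemma hasDerivAt_ip {a b : ℝ → E} {a' b' : E} {t : ℝ} (ha : HasDerivAt a a' t)
    (hb : HasDerivAt b b' t) :
    HasDerivAt (fun s => ip (a s) (b s)) (ip a' (b t) + ip (a t) b') t := by
  have h1 : HasDerivAt (fun s => ip (a s)) (ip a') t := (ip.hasFDerivAt.comp_hasDerivAt t ha)
  exact h1.clm_apply hb

lemma hasDerivAt_alpha {α : E → E →L[ℝ] ℝ} (hα : ContDiff ℝ ∞ α) {c a : ℝ → E} {c' a' : E}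
    {t : ℝ} (hc : HasDerivAt c c' t) (ha : HasDerivAt a a' t) :
    HasDerivAt (fun s => α (c s) (a s)) (fderiv ℝ α (c t) c' (a t) + α (c t) a') t := by
  have h1 : HasDerivAt (fun s => α (c s)) (fderiv ℝ α (c t) c') t :=
    ((hα.differentiable (by simp)) (c t)).hasFDerivAt.comp_hasDerivAt t hc
  exact h1.clm_apply ha

lemma hasDerivAt_om {α : E → E →L[ℝ] ℝ} (hα : ContDiff ℝ ∞ α) {c a b : ℝ → E}
    {c' a' b' : E} {t : ℝ} (hc : HasDerivAt c c' t) (ha : HasDerivAt a a' t)
    (hb : HasDerivAt b b' t) :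
    HasDerivAt (fun s => om α (c s) (a s) (b s))
      (dom α (c t) c' (a t) (b t) + om α (c t) a' (b t) + om α (c t) (a t) b') t := by
  have hA : ContDiff ℝ ∞ (fderiv ℝ α) := hα.fderiv_right (by simp)
  have h0 : HasDerivAt (fun s => fderiv ℝ α (c s)) (fderiv ℝ (fderiv ℝ α) (c t) c') t :=
    ((hA.differentiable (by simp)) (c t)).hasFDerivAt.comp_hasDerivAt t hc
  have h1 := (h0.clm_apply ha).clm_apply hb
  have h2 := (h0.clm_apply hb).clm_apply ha
  refine (h1.sub h2).congr_deriv ?_
  simp only [om, dom, add_apply]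
  ring

/-- The great circle through `p` with velocity `u`. -/
noncomputable def sig (p u : E) (s : ℝ) : E :=
  Real.cos (Real.sqrt (ip u u) * s) • p + (Real.sin (Real.sqrt (ip u u) * s) / Real.sqrt (ip u u)) • u

/-- The velocity of the great circle. -/
noncomputable def sig' (p u : E) (s : ℝ) : E :=
  (-(Real.sqrt (ip u u) * Real.sin (Real.sqrt (ip u u) * s))) • p +
    Real.cos (Real.sqrt (ip u u) * s) • u

lemma sig_zero (p u : E) : sig p u 0 = p := by simp [sig]

lemma sig'_zero (p u : E) : sig' p u 0 = u := by simp [sig']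

lemma sqrt_ip_ne {u : E} (hu : u ≠ 0) : Real.sqrt (ip u u) ≠ 0 := by
  intro h
  apply hu
  apply eq_zero_of_ip_self
  exact (Real.sqrt_eq_zero (ip_self_nonneg u)).1 h

lemma sig_mem {p u : E} (hp : ip p p = 1) (hu : ip p u = 0) (s : ℝ) :
    ip (sig p u s) (sig p u s) = 1 := by
  have hu' : ip u p = 0 := by rw [ip_comm]; exact hu
  by_cases h0 : u = 0
  · subst h0
    simp [sig, hp]
  · have hN := sqrt_ip_ne h0
    have hN2 : Real.sqrt (ip u u) * Real.sqrt (ip u u) = ip u u :=
      Real.mul_self_sqrt (ip_self_nonneg u)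
    set N := Real.sqrt (ip u u) with hNdef
    have : ip (sig p u s) (sig p u s) =
        Real.cos (N * s) ^ 2 + (Real.sin (N * s) / N) ^ 2 * (N * N) := by
      simp only [sig, ← hNdef, map_add, map_smul, add_apply,
        smul_apply, smul_eq_mul, hp, hu, hu', hN2]
      ring
    rw [this]
    have : (Real.sin (N * s) / N) ^ 2 * (N * N) = Real.sin (N * s) ^ 2 := by
      field_simp
    rw [this]
    exact Real.cos_sq_add_sin_sq _

lemma sig_tan {p u : E} (hp : ip p p = 1) (hu : ip p u = 0) (s : ℝ) :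
    ip (sig p u s) (sig' p u s) = 0 := by
  have hu' : ip u p = 0 := by rw [ip_comm]; exact hu
  by_cases h0 : u = 0
  · subst h0
    simp [sig, sig']
  · have hN := sqrt_ip_ne h0
    have hN2 : Real.sqrt (ip u u) * Real.sqrt (ip u u) = ip u u :=
      Real.mul_self_sqrt (ip_self_nonneg u)
    set N := Real.sqrt (ip u u) with hNdef
    have : ip (sig p u s) (sig' p u s) =
        -(N * Real.sin (N * s) * Real.cos (N * s)) +
          Real.cos (N * s) * (Real.sin (N * s) / N) * (N * N) := by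
      simp only [sig, sig', ← hNdef, map_add, map_smul, add_apply,
        smul_apply, smul_eq_mul, hp, hu, hu', hN2]
      ring
    rw [this]
    field_simp
    ring

lemma sig_hasDerivAt (p u : E) (s : ℝ) : HasDerivAt (sig p u) (sig' p u s) s := by
  by_cases h0 : u = 0
  · subst h0
    have h1 : sig p 0 = fun _ => p := by
      funext s; simp [sig]
    have h2 : sig' p 0 s = 0 := by simp [sig']
    rw [h1, h2]
    exact hasDerivAt_const s p
  · have hN := sqrt_ip_ne h0
    set N := Real.sqrt (ip u u) with hNdef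
    have hl : HasDerivAt (fun s => N * s) N s := by
      simpa using (hasDerivAt_id s).const_mul N
    have hc := (hl.cos).smul_const p
    have hs := ((hl.sin).div_const N).smul_const u
    have h := hc.add hs
    refine h.congr_deriv ?_
    simp only [sig', ← hNdef]
    congr 1
    · congr 1; ring
    · congr 1; field_simp

lemma sig'_hasDerivAt (p u : E) :
    HasDerivAt (sig' p u) ((-(ip u u)) • p) 0 := by
  set N := Real.sqrt (ip u u) with hNdef
  have hN2 : N * N = ip u u := Real.mul_self_sqrt (ip_self_nonneg u)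
  have hl : HasDerivAt (fun s => N * s) N 0 := by
    simpa using (hasDerivAt_id (0:ℝ)).const_mul N
  have hs := ((hl.sin.const_mul N).neg).smul_const p
  have hc := (hl.cos).smul_const u
  have h := hs.add hc
  refine h.congr_deriv ?_
  simp only [mul_zero, Real.cos_zero, Real.sin_zero, one_mul, neg_zero, zero_mul, zero_smul,
    add_zero, hN2]


/-- Differentiating an identity valid on the unit sphere along a tangent vector. -/
lemma deriv_zero_of_sphere {W : Type*} [NormedAddCommGroup W] [NormedSpace ℝ W] {p u : E}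
    (hp : ip p p = 1) (hu : ip p u = 0) {F : E → W} (hF : ∀ q, ip q q = 1 → F q = 0) {D : W}
    (hD : HasDerivAt (fun s => F (sig p u s)) D 0) : D = 0 := by
  have h : (fun s => F (sig p u s)) = fun _ => (0 : W) := by
    funext s
    exact hF _ (sig_mem hp hu s)
  rw [h] at hD
  exact hD.unique (hasDerivAt_const 0 0)

lemma sig_hasDerivAt_zero (p u : E) : HasDerivAt (sig p u) u 0 := by
  have := sig_hasDerivAt p u 0
  rwa [sig'_zero] at this

lemma hasDerivAt_field {Z : E → E} (hZ : ContDiff ℝ ∞ Z) {c : ℝ → E} {c' : E} {t : ℝ}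
    (hc : HasDerivAt c c' t) : HasDerivAt (fun s => Z (c s)) (fderiv ℝ Z (c t) c') t :=
  ((hZ.differentiable (by simp)) (c t)).hasFDerivAt.comp_hasDerivAt t hc

/-- `p · Z(p) = 0` on the sphere implies `u · Z + p · DZ u = 0`. -/
lemma tan_deriv {Z : E → E} (hZ : ContDiff ℝ ∞ Z) (htan : ∀ q, ip q q = 1 → ip q (Z q) = 0)
    {p u : E} (hp : ip p p = 1) (hu : ip p u = 0) :
    ip u (Z p) + ip p (fderiv ℝ Z p u) = 0 := by
  have h1 := hasDerivAt_ip (sig_hasDerivAt_zero p u)
    (hasDerivAt_field hZ (sig_hasDerivAt_zero p u))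
  have h2 := deriv_zero_of_sphere (F := fun q => ip q (Z q)) hp hu htan h1
  simpa [sig_zero] using h2

/-- The tangential projection of a fixed vector. -/
lemma proj_tan {q : E} (hq : ip q q = 1) (v : E) : ip q (v - ip q v • q) = 0 := by
  simp [hq]

lemma proj_eq {q v : E} (hv : ip q v = 0) : v - ip q v • q = v := by
  simp [hv]

/-- Differentiating `dα(Z, v) = - Dh(v)` along tangent directions. -/
lemma ker_deriv {α : E → E →L[ℝ] ℝ} (hα : ContDiff ℝ ∞ α) {Z : E → E} (hZ : ContDiff ℝ ∞ Z)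
    {h : E → ℝ} (hh : ContDiff ℝ ∞ h)
    (hker : ∀ q, ip q q = 1 → ∀ v, ip q v = 0 → om α q (Z q) v + fderiv ℝ h q v = 0)
    {p u v : E} (hp : ip p p = 1) (hu : ip p u = 0) (hv : ip p v = 0) :
    dom α p u (Z p) v + om α p (fderiv ℝ Z p u) v - ip u v * om α p (Z p) p
      + fderiv ℝ (fderiv ℝ h) p u v - ip u v * fderiv ℝ h p p = 0 := by
  have hs := sig_hasDerivAt_zero p u
  have hpr : HasDerivAt (fun s => v - ip (sig p u s) v • sig p u s) (-(ip u v • p)) 0 := by
    have h1 := hasDerivAt_ip hs (hasDerivAt_const (0:ℝ) v)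
    have h2 := (h1.smul hs).const_sub v
    refine h2.congr_deriv ?_
    simp [sig_zero, hv]
  have hom := hasDerivAt_om hα hs (hasDerivAt_field hZ hs) hpr
  have hdh : ContDiff ℝ ∞ (fderiv ℝ h) := hh.fderiv_right (by simp)
  have h0 : HasDerivAt (fun s => fderiv ℝ h (sig p u s)) (fderiv ℝ (fderiv ℝ h) (sig p u 0) u) 0 :=
    ((hdh.differentiable (by simp)) (sig p u 0)).hasFDerivAt.comp_hasDerivAt 0 hs
  have h1 := h0.clm_apply hpr
  have h2 := hom.add h1
  have h3 := deriv_zero_of_sphere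
    (F := fun q => om α q (Z q) (v - ip q v • q) + fderiv ℝ h q (v - ip q v • q)) hp hu
    (fun q hq => hker q hq _ (proj_tan hq v)) h2
  simp only [sig_zero, proj_eq hv, map_neg, map_smul, smul_eq_mul] at h3
  have h4 : om α p (Z p) (-(ip u v • p)) = - (ip u v * om α p (Z p) p) := by
    simp [om]; ring
  rw [h4] at h3
  linarith

/-- Lie derivative of `dα` along a tangent field `Z` with `ι_Z dα = -dh` on the sphere. -/
lemma lie_dalpha {α : E → E →L[ℝ] ℝ} (hα : ContDiff ℝ ∞ α) {Z : E → E} (hZ : ContDiff ℝ ∞ Z)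
    {h : E → ℝ} (hh : ContDiff ℝ ∞ h)
    (hker : ∀ q, ip q q = 1 → ∀ v, ip q v = 0 → om α q (Z q) v + fderiv ℝ h q v = 0)
    {p u v : E} (hp : ip p p = 1) (hu : ip p u = 0) (hv : ip p v = 0) :
    dom α p (Z p) u v + om α p (fderiv ℝ Z p u) v + om α p u (fderiv ℝ Z p v) = 0 := by
  have h1 := ker_deriv hα hZ hh hker hp hu hv
  have h2 := ker_deriv hα hZ hh hker hp hv hu
  have h3 := dom_closed hα p (Z p) u v
  have hs : IsSymmSndFDerivAt ℝ h p := by
    apply (hh.contDiffAt (x := p)).isSymmSndFDerivAt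
    have h2 : (2 : WithTop ℕ∞) ≤ ∞ := two_le_infty
    simpa using h2
  have h4 := hs u v
  have h5 : ip v u = ip u v := ip_comm v u
  have h6 := dom_swap α p u (Z p) v
  have h7 := om_swap α p u (fderiv ℝ Z p v)
  rw [h5] at h2
  linarith

end Pool.Agent.Lib.MP_61e5a9_gt
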