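import Pool.Agent.Lib.MP_61e5a9_gt.Fix2

set_option autoImplicit false

/-! Maps of the sphere of finite order: a map of finite order with trivial derivative at a fixed
point is the identity. -/

namespace Pool.Agent.Lib.MP_61e5a9_gt

open scoped ContDiff Topology NNReal
open Set Filter

variable {α : E → E →L[ℝ] ℝ} {R : E → E} {g : E → E}

lemma sphere_preconnected : IsPreconnected {p : E | ip p p = 1} := by
  have h1 : IsPreconnected (Metric.sphere (0 : EuclideanSpace ℝ (Fin 4)) 1) := by
    apply isPreconnected_sphere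
    rw [← Module.finrank_eq_rank]
    simp only [finrank_euclideanSpace, Fintype.card_fin]
    norm_cast
  have h2 : {p : E | ip p p = 1} = (fun x : EuclideanSpace ℝ (Fin 4) => (fun i => x i : E)) ''
      (Metric.sphere (0 : EuclideanSpace ℝ (Fin 4)) 1) := by
    ext p
    simp only [Set.mem_ofPred_eq, mem_image, mem_sphere_zero_iff_norm]
    constructor
    · intro hp
      refine ⟨WithLp.toLp 2 p, ?_, rfl⟩
      rw [EuclideanSpace.norm_eq]
      rw [ip_self] at hp
      simp only [Real.norm_eq_abs, sq_abs]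
      rw [hp, Real.sqrt_one]
    · rintro ⟨x, hx, rfl⟩
      rw [EuclideanSpace.norm_eq, Real.sqrt_eq_one] at hx
      rw [ip_self]
      simpa only [Real.norm_eq_abs, sq_abs] using hx
  rw [h2]
  apply h1.image
  apply Continuous.continuousOn
  fun_prop

/-- A map of the sphere (extended smoothly to `ℝ⁴`). -/
structure SM (g : E → E) : Prop where
  sm : ContDiff ℝ ∞ g
  sph : ∀ p, ip p p = 1 → ip (g p) (g p) = 1

lemma SM.iter (hg : SM g) (n : ℕ) : SM (g^[n]) := by
  induction n with
  | zero => exact ⟨contDiff_id, fun p hp => hp⟩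
  | succ n ih =>
    rw [Function.iterate_succ']
    exact ⟨hg.sm.comp ih.sm, fun p hp => hg.sph _ (ih.sph p hp)⟩

lemma SM.tan (hg : SM g) {p v : E} (hp : ip p p = 1) (hv : ip p v = 0) :
    ip (g p) (fderiv ℝ g p v) = 0 := by
  have hs := hasDerivAt_field hg.sm (sig_hasDerivAt_zero p v)
  have h1 := (hasDerivAt_ip hs hs).sub_const 1
  have h2 := deriv_zero_of_sphere (F := fun q => ip (g q) (g q) - 1) hp hv
    (fun q hq => by rw [hg.sph q hq]; ring) h1
  simp only [sig_zero] at h2
  have h3 := ip_comm (g p) (fderiv ℝ g p v)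
  linarith

/-- Derivative of an iterate at a fixed point. -/
lemma SM.iter_fderiv (hg : SM g) {p : E} (hfix : g p = p) (n : ℕ) (v : E) :
    fderiv ℝ (g^[n]) p v = (fderiv ℝ g p)^[n] v := by
  induction n generalizing v with
  | zero => simp
  | succ n ih =>
    have hfn : g^[n] p = p := Function.iterate_fixed hfix n
    have h1 : HasFDerivAt (g^[n]) (fderiv ℝ (g^[n]) p) p :=
      (((hg.iter n).sm.differentiable (by simp)) p).hasFDerivAt
    have h2 : HasFDerivAt g (fderiv ℝ g p) (g^[n] p) := by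
      rw [hfn]
      exact ((hg.sm.differentiable (by simp)) p).hasFDerivAt
    have h3 := h2.comp p h1
    rw [Function.iterate_succ', h3.fderiv, Function.iterate_succ']
    simp only [ContinuousLinearMap.comp_apply, Function.comp, ih]

/-- If `g = id` near `x` on the sphere then `Dg = id` on tangent vectors. -/
lemma fderiv_of_eventually_id (hg : ContDiff ℝ ∞ g) {x : E} (hx : ip x x = 1)
    (hid : ∀ᶠ y in 𝓝 x, ip y y = 1 → g y = y) {v : E} (hv : ip x v = 0) : fderiv ℝ g x v = v := by
  have hs := sig_hasDerivAt_zero x v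
  have h1 := hasDerivAt_field hg hs
  rw [sig_zero] at h1
  have hcont : Tendsto (sig x v) (𝓝 0) (𝓝 x) := by
    have := hs.continuousAt.tendsto
    rwa [sig_zero] at this
  have h2 : (fun s => g (sig x v s)) =ᶠ[𝓝 0] sig x v := by
    filter_upwards [hcont.eventually hid] with s hs
    exact hs (sig_mem hx hv s)
  exact (h1.congr_of_eventuallyEq h2.symm).unique hs

/-- Local step (Bochner). -/
lemma local_id (hg : SM g) {k : ℕ} (hk : 0 < k) (hkid : ∀ p, ip p p = 1 → g^[k] p = p) {x₀ : E}
    (hx₀ : ip x₀ x₀ = 1) (hfix : g x₀ = x₀) (hD : ∀ v, ip x₀ v = 0 → fderiv ℝ g x₀ v = v) :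
    ∀ᶠ x in 𝓝 x₀, ip x x = 1 → g x = x := by
  have hDj : ∀ j v, ip x₀ v = 0 → fderiv ℝ (g^[j]) x₀ v = v := by
    intro j v hv
    rw [hg.iter_fderiv hfix]
    exact Function.iterate_fixed (hD v hv) j
  set m : E := ((k : ℝ)⁻¹) • ∑ j ∈ Finset.range k, fderiv ℝ (g^[j]) x₀ x₀ with hm
  set z : E := (2 : ℝ)⁻¹ • (x₀ - m) with hz
  let Ψ : E → E := fun x => ((k : ℝ)⁻¹) • ∑ j ∈ Finset.range k, g^[j] x + (ip x x - 1) • z
  have hΨ : HasStrictFDerivAt Ψ (ContinuousLinearMap.id ℝ E) x₀ := by
    have h1 : HasStrictFDerivAt (fun x => ((k : ℝ)⁻¹) • ∑ j ∈ Finset.range k, g^[j] x)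
        (((k : ℝ)⁻¹) • ∑ j ∈ Finset.range k, fderiv ℝ (g^[j]) x₀) x₀ := by
      apply HasStrictFDerivAt.fun_const_smul
      apply HasStrictFDerivAt.fun_sum
      intro j _
      exact ((hg.iter j).sm.contDiffAt).hasStrictFDerivAt (by simp)
    have h4 : HasStrictFDerivAt (fun x : E => ip x x - 1) ((2 : ℝ) • ip x₀) x₀ := by
      have h5 := (ip.hasStrictFDerivAt (x := x₀)).clm_apply (hasStrictFDerivAt_id x₀)
      refine (h5.sub_const 1).congr_fderiv ?_
      ext v
      simp [ip_comm v x₀]
      ring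
    refine (h1.add (h4.smul_const z)).congr_fderiv ?_
    ext1 v
    have hkne : (k : ℝ) ≠ 0 := by positivity
    have hdec : v = (v - ip x₀ v • x₀) + ip x₀ v • x₀ := by abel
    have hsum : ((k : ℝ)⁻¹ • ∑ j ∈ Finset.range k, fderiv ℝ (g^[j]) x₀) v =
        (v - ip x₀ v • x₀) + ip x₀ v • m := by
      rw [hm]
      simp only [smul_apply, sum_apply]
      have h6 : ∀ j ∈ Finset.range k, fderiv ℝ (g^[j]) x₀ v =
          (v - ip x₀ v • x₀) + ip x₀ v • fderiv ℝ (g^[j]) x₀ x₀ := by
        intro j _
        conv_lhs => rw [hdec, map_add, map_smul, hDj j _ (proj_tan hx₀ v)]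
      rw [Finset.sum_congr rfl h6, Finset.sum_add_distrib, ← Finset.smul_sum, smul_add,
        Finset.sum_const, Finset.card_range, smul_comm ((k : ℝ)⁻¹) (ip x₀ v)]
      congr 1
      rw [← Nat.cast_smul_eq_nsmul ℝ, smul_smul, inv_mul_cancel₀ hkne, one_smul]
    rw [add_apply, hsum]
    simp only [ContinuousLinearMap.smulRight_apply, smul_apply, smul_eq_mul,
      ContinuousLinearMap.id_apply, hz]
    module
  have hinj : ∀ᶠ y in 𝓝 (x₀, x₀), Ψ y.1 = Ψ y.2 → y.1 = y.2 := by
    have h1 := hΨ.isLittleO.def (c := 1 / 2) (by norm_num)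
    filter_upwards [h1] with y hy heq
    rw [heq, sub_self, zero_sub, norm_neg, ContinuousLinearMap.id_apply] at hy
    have h2 : ‖y.1 - y.2‖ = 0 := by
      have := norm_nonneg (y.1 - y.2)
      linarith
    exact sub_eq_zero.1 (norm_eq_zero.1 h2)
  have hpair : Tendsto (fun x => (g x, x)) (𝓝 x₀) (𝓝 (x₀, x₀)) := by
    have h1 : Continuous fun x => (g x, x) := hg.sm.continuous.prodMk continuous_id
    have h2 := h1.tendsto x₀
    simp only [hfix] at h2
    exact h2
  filter_upwards [hpair.eventually hinj] with x hx hxS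
  apply hx
  simp only [Ψ]
  rw [hg.sph x hxS, hxS, sub_self, zero_smul, add_zero, add_zero]
  congr 1
  have h3 : ∀ j, g^[j] (g x) = g^[j + 1] x := fun j => (Function.iterate_succ_apply g j x).symm
  rw [Finset.sum_congr rfl (fun j _ => h3 j)]
  have h4 := Finset.sum_range_succ' (fun j => g^[j] x) k
  have h5 := Finset.sum_range_succ (fun j => g^[j] x) k
  rw [hkid x hxS] at h5
  have h6 : g^[0] x = x := rfl
  rw [h6] at h4
  exact add_right_cancel (h4.symm.trans h5)

/-- A map of finite order with trivial derivative at a fixed point is the identity. -/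
lemma id_of_finite_order (hg : SM g) {k : ℕ} (hk : 0 < k) (hkid : ∀ p, ip p p = 1 → g^[k] p = p)
    {x₀ : E} (hx₀ : ip x₀ x₀ = 1) (hfix : g x₀ = x₀)
    (hD : ∀ v, ip x₀ v = 0 → fderiv ℝ g x₀ v = v) : ∀ x, ip x x = 1 → g x = x := by
  let u : Set E := {x | ∀ᶠ y in 𝓝 x, ip y y = 1 → g y = y}
  have hu : IsOpen u := by
    rw [isOpen_iff_mem_nhds]
    intro x hx
    exact eventually_eventually_nhds.2 hx
  have hdg : Continuous (fderiv ℝ g) := hg.sm.continuous_fderiv (by simp)
  have hcl : ∀ x, ip x x = 1 → x ∉ u → ∀ᶠ y in 𝓝 x, ip y y = 1 → y ∉ u := by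
    intro x hx hxu
    by_contra hcon
    rw [not_eventually] at hcon
    have hfreq : ∃ᶠ y in 𝓝 x, ip y y = 1 ∧ y ∈ u := by
      refine hcon.mono fun y hy => ?_
      push Not at hy
      exact hy
    apply hxu
    -- `g x = x` and `Dg x = id` by continuity
    have hgx : g x = x := by
      have hclosed : IsClosed {y : E | g y = y} := isClosed_eq hg.sm.continuous continuous_id
      have := hclosed.mem_of_frequently_of_tendsto (f := fun y : E => y) (b := 𝓝 x)
        (hfreq.mono fun y hy => (hy.2.self_of_nhds hy.1 : g y = y)) tendsto_id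
      exact this
    have hDx : ∀ v, ip x v = 0 → fderiv ℝ g x v = v := by
      intro v hv
      have hc1 : Continuous fun y : E => v - ip y v • y := by
        have : Continuous fun y : E => ip y v := ip.continuous.clm_apply continuous_const
        fun_prop
      have hclosed : IsClosed {y : E | fderiv ℝ g y (v - ip y v • y) = v - ip y v • y} :=
        isClosed_eq (hdg.clm_apply hc1) hc1
      have := hclosed.mem_of_frequently_of_tendsto (f := fun y : E => y) (b := 𝓝 x)
        (hfreq.mono fun y hy => (fderiv_of_eventually_id hg.sm hy.1 hy.2 (proj_tan hy.1 v)))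
        tendsto_id
      have h2 : fderiv ℝ g x (v - ip x v • x) = v - ip x v • x := this
      rwa [hv, zero_smul, sub_zero] at h2
    exact local_id hg hk hkid hx hgx hDx
  have hx₀u : x₀ ∈ u := local_id hg hk hkid hx₀ hfix hD
  intro x hx
  by_contra hcon
  have hxu : x ∉ u := fun hxu => hcon (hxu.self_of_nhds hx)
  let v : Set E := {x | ∀ᶠ y in 𝓝 x, ip y y = 1 → y ∉ u}
  have hv : IsOpen v := by
    rw [isOpen_iff_mem_nhds]
    intro x hx
    exact eventually_eventually_nhds.2 hx
  obtain ⟨y, hyS, hyu, hyv⟩ := sphere_preconnected u v hu hv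
    (fun y hy => by
      by_cases hyu : y ∈ u
      · exact Or.inl hyu
      · exact Or.inr (hcl y hy hyu))
    ⟨x₀, hx₀, hx₀u⟩ ⟨x, hx, hcl x hx hxu⟩
  exact (hyv.self_of_nhds hyS) hyu

/-- For a symmetry of the Reeb field of finite order whose square is not the identity the
derivative at a fixed point has no real eigenvector in the plane normal to the Reeb direction. -/
lemma no_real_of_order (h : CD α R) (hg : Co R g) {k : ℕ} (hk : 0 < k)
    (hkid : ∀ p, ip p p = 1 → g^[k] p = p) (hne : ∃ q, ip q q = 1 ∧ g (g q) ≠ q) {p : E}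
    (hp : ip p p = 1) (hfix : g p = p) :
    ∀ v, ip p v = 0 → α p v = 0 → v ≠ 0 → ∀ μ c : ℝ,
      fderiv ℝ g p v ≠ μ • v + c • R p := by
  intro v hv hαv hv0 μ c hμ
  have hgM : SM g := ⟨hg.sm, hg.sph⟩
  obtain ⟨A, hA⟩ : ∃ A, A = fderiv ℝ g p := ⟨_, rfl⟩
  have hDk : ∀ u, ip p u = 0 → A^[k] u = u := by
    intro u hu
    rw [hA, ← hgM.iter_fderiv hfix]
    exact fderiv_of_eventually_id (hgM.iter k).sm hp (Eventually.of_forall hkid) hu
  have hAR : A (R p) = R p := by rw [hA, hg.com p hp, hfix]
  rw [← hA] at hμ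
  have hRt := h.tan p hp
  have hR1 := h.one p hp
  have htA : ∀ u, ip p u = 0 → ip p (A u) = 0 := by
    intro u hu
    have := hg.tan hp hu
    rwa [hfix, ← hA] at this
  -- powers on `v`
  have hpow : ∀ n : ℕ, ∃ e : ℝ, A^[n] v = μ ^ n • v + e • R p := by
    intro n
    induction n with
    | zero => exact ⟨0, by simp⟩
    | succ n ih =>
      obtain ⟨e, he⟩ := ih
      refine ⟨μ ^ n * c + e, ?_⟩
      rw [Function.iterate_succ_apply', he, map_add, map_smul, map_smul, hμ, hAR]
      module
  have hμk : μ ^ k = 1 := by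
    obtain ⟨e, he⟩ := hpow k
    rw [hDk v hv] at he
    have h1 := congrArg (α p) he
    rw [map_add, map_smul, map_smul, hαv, hR1] at h1
    have he0 : e = 0 := by
      simp only [smul_eq_mul, mul_zero, mul_one, zero_add] at h1
      exact h1.symm
    rw [he0, zero_smul, add_zero] at he
    have h2 : (μ ^ k - 1) • v = 0 := by rw [sub_smul, one_smul, ← he, sub_self]
    rcases smul_eq_zero.1 h2 with h3 | h3
    · linarith
    · exact absurd h3 hv0
  have hμ2 : μ * μ = 1 := by
    have h1 : |μ| ^ k = 1 := by rw [← abs_pow, hμk, abs_one]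
    have h2 : |μ| = 1 := (pow_eq_one_iff_of_nonneg (abs_nonneg μ) hk.ne').1 h1
    rw [← abs_mul_abs_self, h2, one_mul]
  have hkR : (k : ℝ) ≠ 0 := by positivity
  -- `B = A ∘ A` on `v`
  obtain ⟨B, hB⟩ : ∃ B : E →L[ℝ] E, B = A.comp A := ⟨_, rfl⟩
  have hBA : ∀ u, B u = A (A u) := fun u => by rw [hB]; rfl
  have hBR : B (R p) = R p := by rw [hBA, hAR, hAR]
  have hBk : ∀ u, ip p u = 0 → B^[k] u = u := by
    intro u hu
    have h1 : (B : E → E) = A^[2] := by
      funext u
      rw [hBA]
      rfl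
    rw [h1, ← Function.iterate_mul, mul_comm, Function.iterate_mul]
    have h2 : (A^[k])^[2] u = A^[k] (A^[k] u) := rfl
    rw [h2, hDk u hu, hDk u hu]
  have hBv : B v = v := by
    have h1 : B v = v + (μ * c + c) • R p := by
      rw [hBA, hμ, map_add, map_smul, map_smul, hμ, hAR]
      have : μ • (μ • v + c • R p) + c • R p = (μ * μ) • v + (μ * c + c) • R p := by module
      rw [this, hμ2, one_smul]
    have h2 : ∀ n : ℕ, B^[n] v = v + ((n : ℝ) * (μ * c + c)) • R p := by
      intro n
      induction n with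
      | zero => simp
      | succ n ih =>
        rw [Function.iterate_succ_apply', ih, map_add, map_smul, hBR, h1]
        push_cast
        module
    have h3 := h2 k
    rw [hBk v hv] at h3
    have h4 := congrArg (α p) h3
    rw [map_add, map_smul, hαv, hR1, smul_eq_mul, mul_one, zero_add] at h4
    have h5 : μ * c + c = 0 := by
      rcases mul_eq_zero.1 h4.symm with h6 | h6
      · exact absurd h6 hkR
      · exact h6
    rw [h1, h5, zero_smul, add_zero]
  obtain ⟨u, hu, hαu, hvu⟩ := exists_partner h hp hv hαv hv0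
  -- `A u` in the basis
  have hAu : ∃ a b e : ℝ, A u = a • v + b • u + e • R p := by
    obtain ⟨a, b, hab⟩ := span_four h hp hv hαv hu hαu hvu (v := A u - α p (A u) • R p)
      (by rw [map_sub, map_smul, htA u hu, hRt]; simp)
      (by rw [map_sub, map_smul, hR1]; simp)
    exact ⟨a, b, α p (A u), by rw [← hab]; abel⟩
  obtain ⟨a₁, b₁, e₁, hAu⟩ := hAu
  have hBu : ∃ a e : ℝ, B u = a • v + (b₁ * b₁) • u + e • R p := by
    refine ⟨a₁ * μ + b₁ * a₁, a₁ * c + b₁ * e₁ + e₁, ?_⟩
    rw [hBA, hAu]
    simp only [map_add, map_smul, hμ, hAR, hAu]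
    module
  obtain ⟨a, e, hBu⟩ := hBu
  have hb1 : b₁ * b₁ = 1 := by
    have h1 : ∀ n : ℕ, ∃ x y : ℝ, B^[n] u = x • v + (b₁ * b₁) ^ n • u + y • R p := by
      intro n
      induction n with
      | zero => exact ⟨0, 0, by simp⟩
      | succ n ih =>
        obtain ⟨x, y, hxy⟩ := ih
        refine ⟨x + (b₁ * b₁) ^ n * a, (b₁ * b₁) ^ n * e + y, ?_⟩
        rw [Function.iterate_succ_apply', hxy]
        simp only [map_add, map_smul, hBv, hBR, hBu]
        module
    obtain ⟨x, y, hxy⟩ := h1 k
    rw [hBk u hu] at hxy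
    have h2 := congrArg (om α p v) hxy
    have h3 : om α p v (R p) = 0 := by
      rw [om_swap, h.ker p hp v hv, neg_zero]
    rw [om_add_right, om_add_right, om_smul_right, om_smul_right, om_smul_right, om_self, h3] at h2
    have h4 : ((b₁ * b₁) ^ k - 1) * om α p v u = 0 := by linarith
    have h5 : (b₁ * b₁) ^ k = 1 := by
      rcases mul_eq_zero.1 h4 with h6 | h6
      · linarith
      · exact absurd h6 hvu
    exact (pow_eq_one_iff_of_nonneg (mul_self_nonneg b₁) hk.ne').1 h5
  rw [hb1, one_smul] at hBu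
  have hBn : ∀ n : ℕ, B^[n] u = u + (n : ℝ) • (a • v + e • R p) := by
    intro n
    induction n with
    | zero => simp
    | succ n ih =>
      rw [Function.iterate_succ_apply', ih]
      simp only [map_add, map_smul, hBv, hBR, hBu]
      push_cast
      module
  have hae : a • v + e • R p = 0 := by
    have h1 := hBn k
    rw [hBk u hu] at h1
    have h2 : (k : ℝ) • (a • v + e • R p) = 0 := by
      have := sub_eq_zero.2 h1.symm
      rwa [add_sub_cancel_left] at this
    rcases smul_eq_zero.1 h2 with h3 | h3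
    · exact absurd h3 hkR
    · exact h3
  have hBu' : B u = u := by
    rw [hBu]
    have : a • v + u + e • R p = u + (a • v + e • R p) := by abel
    rw [this, hae, add_zero]
  have hBid : ∀ w, ip p w = 0 → B w = w := by
    intro w hw
    obtain ⟨x, y, hxy⟩ := span_four h hp hv hαv hu hαu hvu (v := w - α p w • R p)
      (by rw [map_sub, map_smul, hRt, hw]; simp)
      (by rw [map_sub, map_smul, hR1]; simp)
    have hw' : w = x • v + y • u + α p w • R p := by rw [← hxy]; abel
    rw [hw']
    simp only [map_add, map_smul, hBv, hBu', hBR]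
  obtain ⟨q, hq, hgq⟩ := hne
  apply hgq
  have hg2 : SM (g^[2]) := hgM.iter 2
  have := id_of_finite_order hg2 hk (fun x hx => by
      rw [← Function.iterate_mul, mul_comm, Function.iterate_mul]
      have : (g^[k])^[2] x = g^[k] (g^[k] x) := rfl
      rw [this, hkid x hx, hkid x hx]) hp (Function.iterate_fixed hfix 2)
    (fun w hw => by
      rw [hgM.iter_fderiv hfix]
      have h1 : (fderiv ℝ g p)^[2] w = A (A w) := by rw [hA]; rfl
      rw [h1, ← hBA]
      exact hBid w hw) q hq
  exact this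

end Pool.Agent.Lib.MP_61e5a9_gt
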