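import Pool.Agent.Lib.MP_61e5a9_gt.Flow

set_option autoImplicit false

/-! Strict contact symmetries with a fixed point. -/

namespace Pool.Agent.Lib.MP_61e5a9_gt

open scoped ContDiff Topology NNReal
open Set Filter

variable {α : E → E →L[ℝ] ℝ} {R : E → E} {g : E → E}

/-- A smooth map of the sphere (extended to `ℝ⁴`) that preserves `α` on the sphere. -/
structure Sy (α : E → E →L[ℝ] ℝ) (g : E → E) : Prop where
  sm : ContDiff ℝ ∞ g
  sph : ∀ p, ip p p = 1 → ip (g p) (g p) = 1
  inv : ∀ p v, ip p p = 1 → ip p v = 0 → α (g p) (fderiv ℝ g p v) = α p v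

lemma Sy.tan (hg : Sy α g) {p v : E} (hp : ip p p = 1) (hv : ip p v = 0) :
    ip (g p) (fderiv ℝ g p v) = 0 := by
  have hs := hasDerivAt_field hg.sm (sig_hasDerivAt_zero p v)
  have h1 := (hasDerivAt_ip hs hs).sub_const 1
  have h2 := deriv_zero_of_sphere (F := fun q => ip (g q) (g q) - 1) hp hv
    (fun q hq => by rw [hg.sph q hq]; ring) h1
  simp only [sig_zero] at h2
  have h3 := ip_comm (g p) (fderiv ℝ g p v)
  linarith

/-- `g` preserves `dα`. -/
lemma Sy.om (hα : ContDiff ℝ ∞ α) (hg : Sy α g) {p u v : E} (hp : ip p p = 1) (hu : ip p u = 0)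
    (hv : ip p v = 0) :
    om α (g p) (fderiv ℝ g p u) (fderiv ℝ g p v) = om α p u v := by
  have key : ∀ u v : E, ip p u = 0 → ip p v = 0 →
      fderiv ℝ α (g p) (fderiv ℝ g p u) (fderiv ℝ g p v) +
        α (g p) (fderiv ℝ (fderiv ℝ g) p u v - ip u v • fderiv ℝ g p p) =
      fderiv ℝ α p u v - ip u v * α p p := by
    intro u v hu hv
    have hs := sig_hasDerivAt_zero p u
    have hpr : HasDerivAt (fun s => v - ip (sig p u s) v • sig p u s) (-(ip u v • p)) 0 := by
      have h1 := hasDerivAt_ip hs (hasDerivAt_const (0:ℝ) v)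
      have h2 := (h1.smul hs).const_sub v
      refine h2.congr_deriv ?_
      simp [sig_zero, hv]
    have hdg : ContDiff ℝ ∞ (fderiv ℝ g) := hg.sm.fderiv_right (by simp)
    have h0 : HasDerivAt (fun s => fderiv ℝ g (sig p u s)) (fderiv ℝ (fderiv ℝ g) (sig p u 0) u) 0 :=
      ((hdg.differentiable (by simp)) (sig p u 0)).hasFDerivAt.comp_hasDerivAt 0 hs
    have h1 := h0.clm_apply hpr
    have h2 := (hasDerivAt_alpha hα (hasDerivAt_field hg.sm hs) h1).sub
      (hasDerivAt_alpha hα hs hpr)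
    have h3 := deriv_zero_of_sphere
      (F := fun q => α (g q) (fderiv ℝ g q (v - ip q v • q)) - α q (v - ip q v • q)) hp hu
      (fun q hq => by rw [hg.inv q _ hq (proj_tan hq v)]; ring) h2
    simp only [sig_zero, proj_eq hv, map_neg, map_smul, smul_eq_mul, map_add] at h3
    rw [map_sub, map_smul, smul_eq_mul]
    linarith
  have h1 := key u v hu hv
  have h2 := key v u hv hu
  have hsym : IsSymmSndFDerivAt ℝ g p := by
    apply (hg.sm.contDiffAt (x := p)).isSymmSndFDerivAt
    simpa using two_le_infty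
  rw [hsym v u, ip_comm v u] at h2
  simp only [Pool.Agent.Lib.MP_61e5a9_gt.om]
  linarith

/-- `Dg` is injective on tangent vectors. -/
lemma Sy.inj (h : CD α R) (hg : Sy α g) {p v : E} (hp : ip p p = 1) (hv : ip p v = 0)
    (h0 : fderiv ℝ g p v = 0) : v = 0 := by
  apply h.uniq p hp v hv
  · rw [← hg.inv p v hp hv, h0, map_zero]
  · intro u hu
    rw [← hg.om h.sα hp hv hu, h0, om_zero_left]

/-- `Dg` is onto the tangent space at `g p`. -/
lemma Sy.surj (h : CD α R) (hg : Sy α g) {p w : E} (hp : ip p p = 1) (hw : ip (g p) w = 0) :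
    ∃ v, ip p v = 0 ∧ fderiv ℝ g p v = w := by
  let L : E →L[ℝ] E := (fderiv ℝ g p).comp (ContinuousLinearMap.id ℝ E - (ip p).smulRight p) +
    (ip p).smulRight (g p)
  have hL : ∀ v, L v = fderiv ℝ g p (v - ip p v • p) + ip p v • g p := fun v => by simp [L]
  have hgp := hg.sph p hp
  have hip : ∀ v, ip (g p) (L v) = ip p v := by
    intro v
    rw [hL, map_add, hg.tan hp (proj_tan hp v), map_smul, hgp]
    simp
  have hinj : Function.Injective (L : E →ₗ[ℝ] E) := by
    rw [injective_iff_map_eq_zero]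
    intro v hv
    have hv' : L v = 0 := hv
    have h1 : ip p v = 0 := by rw [← hip v, hv', map_zero]
    rw [hL, h1, zero_smul, zero_smul, sub_zero, add_zero] at hv'
    exact hg.inj h hp h1 hv'
  obtain ⟨v, hv⟩ := (LinearMap.injective_iff_surjective.1 hinj) w
  have hv' : L v = w := hv
  have h1 : ip p v = 0 := by rw [← hip v, hv', hw]
  refine ⟨v, h1, ?_⟩
  rw [hL, h1, zero_smul, zero_smul, sub_zero, add_zero] at hv'
  exact hv'

/-- `g` maps the Reeb field to itself. -/
lemma Sy.reeb (h : CD α R) (hg : Sy α g) {p : E} (hp : ip p p = 1) :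
    fderiv ℝ g p (R p) = R (g p) := by
  have hgp := hg.sph p hp
  have hR := h.tan p hp
  have : fderiv ℝ g p (R p) - R (g p) = 0 := by
    apply h.uniq (g p) hgp
    · rw [map_sub, hg.tan hp hR, h.tan _ hgp, sub_zero]
    · rw [map_sub, hg.inv p _ hp hR, h.one p hp, h.one _ hgp, sub_self]
    · intro w hw
      obtain ⟨v, hv, hvw⟩ := hg.surj h hp hw
      rw [om_sub_left, ← hvw, hg.om h.sα hp hR hv, h.ker p hp v hv, hvw, h.ker _ hgp w hw,
        sub_zero]
  exact sub_eq_zero.1 this

/-- A smooth map of the sphere (extended to `ℝ⁴`) that commutes with the Reeb field. -/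
structure Co (R : E → E) (g : E → E) : Prop where
  sm : ContDiff ℝ ∞ g
  sph : ∀ p, ip p p = 1 → ip (g p) (g p) = 1
  com : ∀ p, ip p p = 1 → fderiv ℝ g p (R p) = R (g p)

lemma Sy.toCo (h : CD α R) (hg : Sy α g) : Co R g :=
  ⟨hg.sm, hg.sph, fun _ hp => hg.reeb h hp⟩

lemma Co.tan (hg : Co R g) {p v : E} (hp : ip p p = 1) (hv : ip p v = 0) :
    ip (g p) (fderiv ℝ g p v) = 0 := by
  have hs := hasDerivAt_field hg.sm (sig_hasDerivAt_zero p v)
  have h1 := (hasDerivAt_ip hs hs).sub_const 1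
  have h2 := deriv_zero_of_sphere (F := fun q => ip (g q) (g q) - 1) hp hv
    (fun q hq => by rw [hg.sph q hq]; ring) h1
  simp only [sig_zero] at h2
  have h3 := ip_comm (g p) (fderiv ℝ g p v)
  linarith

/-- The derivative of the commutation relation. -/
lemma Co.comm (h : CD α R) (hg : Co R g) {p u : E} (hp : ip p p = 1) (hu : ip p u = 0) :
    fderiv ℝ (fderiv ℝ g) p (R p) u + fderiv ℝ g p (fderiv ℝ R p u) =
      fderiv ℝ R (g p) (fderiv ℝ g p u) := by
  have hs := sig_hasDerivAt_zero p u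
  have hdg : ContDiff ℝ ∞ (fderiv ℝ g) := hg.sm.fderiv_right (by simp)
  have h1 : HasDerivAt (fun s => fderiv ℝ g (sig p u s))
      (fderiv ℝ (fderiv ℝ g) (sig p u 0) u) 0 :=
    ((hdg.differentiable (by simp)) (sig p u 0)).hasFDerivAt.comp_hasDerivAt 0 hs
  have h3 := (h1.clm_apply (hasDerivAt_field h.sR hs)).sub
    (hasDerivAt_field h.sR (hasDerivAt_field hg.sm hs))
  have h4 := deriv_zero_of_sphere
    (F := fun q => fderiv ℝ g q (R q) - R (g q)) hp hu
    (fun q hq => by rw [hg.com _ hq, sub_self]) h3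
  simp only [sig_zero] at h4
  have hsym : IsSymmSndFDerivAt ℝ g p := by
    apply (hg.sm.contDiffAt (x := p)).isSymmSndFDerivAt
    simpa using two_le_infty
  rw [hsym (R p) u]
  exact sub_eq_zero.1 h4

/-- A Reeb trajectory with a fixed point of `g` on it consists of fixed points. -/
lemma Co.fix (h : CD α R) (hg : Co R g) {γ : ℝ → E} (hS : ∀ t, ip (γ t) (γ t) = 1)
    (hγ : ∀ t, HasDerivAt γ (R (γ t)) t) (h0 : g (γ 0) = γ 0) (t : ℝ) : g (γ t) = γ t := by
  have := reeb_unique h (γ := fun t => g (γ t)) (δ := γ) (fun t => hg.sph _ (hS t))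
    (fun t => (hasDerivAt_field hg.sm (hγ t)).congr_deriv (hg.com _ (hS t))) hS hγ (t₀ := 0) h0
  exact congrFun this t

/-- `Dg` maps solutions of the linearised equation to solutions. -/
lemma Co.sol (h : CD α R) (hg : Co R g) {γ w : ℝ → E} (hS : ∀ t, ip (γ t) (γ t) = 1)
    (hγ : ∀ t, HasDerivAt γ (R (γ t)) t) (hfix : ∀ t, g (γ t) = γ t)
    (hw : ∀ t, HasDerivAt w (fderiv ℝ R (γ t) (w t)) t) {t : ℝ} (hwt : ip (γ t) (w t) = 0) :
    HasDerivAt (fun t => fderiv ℝ g (γ t) (w t))
      (fderiv ℝ R (γ t) (fderiv ℝ g (γ t) (w t))) t := by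
  have hdg : ContDiff ℝ ∞ (fderiv ℝ g) := hg.sm.fderiv_right (by simp)
  have h1 : HasDerivAt (fun s => fderiv ℝ g (γ s))
      (fderiv ℝ (fderiv ℝ g) (γ t) (R (γ t))) t :=
    ((hdg.differentiable (by simp)) (γ t)).hasFDerivAt.comp_hasDerivAt t (hγ t)
  refine (h1.clm_apply (hw t)).congr_deriv ?_
  have h2 := hg.comm h (hS t) hwt
  rw [hfix t] at h2
  exact h2

/-- Four vectors spanning `ℝ⁴`. -/
lemma span_four (h : CD α R) {p v₀ v₁ : E} (hp : ip p p = 1) (hv₀ : ip p v₀ = 0)
    (hα₀ : α p v₀ = 0) (hv₁ : ip p v₁ = 0) (hα₁ : α p v₁ = 0) (hom : om α p v₀ v₁ ≠ 0)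
    {v : E} (hv : ip p v = 0) (hαv : α p v = 0) : ∃ a b : ℝ, v = a • v₀ + b • v₁ := by
  have hR := h.tan p hp
  have h1R := h.one p hp
  have hli : LinearIndependent ℝ ![p, R p, v₀, v₁] := by
    rw [Fintype.linearIndependent_iff]
    intro c hc
    simp only [Fin.sum_univ_four, Matrix.cons_val_zero, Matrix.cons_val_one,
      Matrix.cons_val] at hc
    have e0 := congrArg (ip p) hc
    simp only [map_add, map_smul, smul_eq_mul, hp, hR, hv₀, hv₁, map_zero] at e0
    have c0 : c 0 = 0 := by linarith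
    rw [c0, zero_smul, zero_add] at hc
    have e1 := congrArg (α p) hc
    simp only [map_add, map_smul, smul_eq_mul, h1R, hα₀, hα₁, map_zero] at e1
    have c1 : c 1 = 0 := by linarith
    rw [c1, zero_smul, zero_add] at hc
    have e2 := congrArg (om α p v₀) hc
    rw [om_add_right, om_smul_right, om_smul_right, om_self, om_zero_right] at e2
    have c3 : c 3 = 0 := by
      rcases mul_eq_zero.1 (show c 3 * om α p v₀ v₁ = 0 by linarith) with h2 | h2
      · exact h2
      · exact absurd h2 hom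
    rw [c3, zero_smul, add_zero] at hc
    have e3 := congrArg (fun z => om α p z v₁) hc
    simp only [om_smul_left, om_zero_left] at e3
    have c2 : c 2 = 0 := by
      rcases mul_eq_zero.1 e3 with h2 | h2
      · exact h2
      · exact absurd h2 hom
    intro i
    fin_cases i <;> assumption
  have hspan := hli.span_eq_top_of_card_eq_finrank (by simp)
  have hmem : v ∈ Submodule.span ℝ (Set.range ![p, R p, v₀, v₁]) := by rw [hspan]; trivial
  rw [Submodule.mem_span_range_iff_exists_fun] at hmem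
  obtain ⟨c, hc⟩ := hmem
  simp only [Fin.sum_univ_four, Matrix.cons_val_zero, Matrix.cons_val_one,
    Matrix.cons_val] at hc
  have e0 := congrArg (ip p) hc
  simp only [map_add, map_smul, smul_eq_mul, hp, hR, hv₀, hv₁, hv] at e0
  have c0 : c 0 = 0 := by linarith
  rw [c0, zero_smul, zero_add] at hc
  have e1 := congrArg (α p) hc
  simp only [map_add, map_smul, smul_eq_mul, h1R, hα₀, hα₁, hαv] at e1
  have c1 : c 1 = 0 := by linarith
  rw [c1, zero_smul, zero_add] at hc
  exact ⟨c 2, c 3, hc.symm⟩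

/-- `dα` is nondegenerate on the contact plane. -/
lemma exists_partner (h : CD α R) {p v : E} (hp : ip p p = 1) (hv : ip p v = 0)
    (hα : α p v = 0) (hne : v ≠ 0) : ∃ u, ip p u = 0 ∧ α p u = 0 ∧ om α p v u ≠ 0 := by
  by_contra hcon
  push Not at hcon
  apply hne
  apply h.uniq p hp v hv hα
  intro u hu
  have h1 := hcon (u - α p u • R p) (by rw [map_sub, map_smul, h.tan p hp, hu]; simp)
    (by rw [map_sub, map_smul, h.one p hp]; simp)
  rw [om_sub_right, om_smul_right, om_swap α p (R p) v, h.ker p hp v hv] at h1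
  linarith

/-- A vector of the contact plane that is `dα`-orthogonal to `v ≠ 0` is a multiple of `v`. -/
lemma parallel (h : CD α R) {p v w : E} (hp : ip p p = 1) (hv : ip p v = 0)
    (hα : α p v = 0) (hne : v ≠ 0) (hw : ip p w = 0) (hαw : α p w = 0) (hom : om α p v w = 0) :
    ∃ c : ℝ, w = c • v := by
  obtain ⟨u, hu, hαu, hvu⟩ := exists_partner h hp hv hα hne
  obtain ⟨a, b, hab⟩ := span_four h hp hv hα hu hαu hvu hw hαw
  rw [hab, om_add_right, om_smul_right, om_smul_right, om_self] at hom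
  have hb : b = 0 := by
    rcases mul_eq_zero.1 (show b * om α p v u = 0 by linarith) with h2 | h2
    · exact h2
    · exact absurd h2 hvu
  exact ⟨a, by rw [hab, hb, zero_smul, add_zero]⟩

end Pool.Agent.Lib.MP_61e5a9_gt
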