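import Pool.Agent.Lib.MP_61e5a9_gt.Fix

set_option autoImplicit false

/-! The Reeb orbit through a fixed point without real eigenvector is closed and elliptic. -/

namespace Pool.Agent.Lib.MP_61e5a9_gt

open scoped ContDiff Topology NNReal
open Set Filter

variable {α : E → E →L[ℝ] ℝ} {R : E → E} {g : E → E}

/-- The contact plane is not zero. -/
lemma exists_plane (α : E → E →L[ℝ] ℝ) (p : E) : ∃ v : E, v ≠ 0 ∧ ip p v = 0 ∧ α p v = 0 := by
  let L : E →ₗ[ℝ] ℝ × ℝ := ((ip p : E →L[ℝ] ℝ) : E →ₗ[ℝ] ℝ).prod ((α p : E →L[ℝ] ℝ) : E →ₗ[ℝ] ℝ)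
  have hker : LinearMap.ker L ≠ ⊥ := LinearMap.ker_ne_bot_of_finrank_lt (by simp)
  obtain ⟨v, hv, hne⟩ := (Submodule.ne_bot_iff _).1 hker
  rw [LinearMap.mem_ker] at hv
  exact ⟨v, hne, congrArg Prod.fst hv, congrArg Prod.snd hv⟩

/-- The derivative of `g` at a fixed point, projected to the contact plane along the Reeb
direction. -/
noncomputable def tr (α : E → E →L[ℝ] ℝ) (R g : E → E) (x v : E) : E :=
  fderiv ℝ g x v - α x (fderiv ℝ g x v) • R x

lemma tr_split (x v : E) :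
    fderiv ℝ g x v = tr α R g x v + α x (fderiv ℝ g x v) • R x := by
  rw [tr, sub_add_cancel]

lemma tr_sub (x u v : E) : tr α R g x (u - v) = tr α R g x u - tr α R g x v := by
  simp only [tr, map_sub]
  module

lemma tr_add (x u v : E) : tr α R g x (u + v) = tr α R g x u + tr α R g x v := by
  simp only [tr, map_add]
  module

lemma tr_smul (x v : E) (c : ℝ) : tr α R g x (c • v) = c • tr α R g x v := by
  simp only [tr, map_smul, smul_eq_mul]
  module

lemma tr_tan (h : CD α R) (hg : Co R g) {x v : E} (hx : ip x x = 1) (hfix : g x = x)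
    (hv : ip x v = 0) : ip x (tr α R g x v) = 0 := by
  have h1 := hg.tan hx hv
  rw [hfix] at h1
  rw [tr, map_sub, map_smul, h1, h.tan x hx]
  simp

lemma tr_alpha (h : CD α R) {x : E} (hx : ip x x = 1) (v : E) : α x (tr α R g x v) = 0 := by
  rw [tr, map_sub, map_smul, h.one x hx]
  simp

/-- The characteristic equation of `Dg` at a fixed point without real eigenvector. -/
lemma quad_at (h : CD α R) (hg : Co R g) {p : E} (hp : ip p p = 1) (hfix : g p = p)
    (hne : ∀ v, ip p v = 0 → α p v = 0 → v ≠ 0 → ∀ μ c : ℝ,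
      fderiv ℝ g p v ≠ μ • v + c • R p) :
    ∃ (v₀ : E) (b d : ℝ), ip p v₀ = 0 ∧ α p v₀ = 0 ∧ om α p v₀ (tr α R g p v₀) ≠ 0 ∧
      tr α R g p (tr α R g p v₀) = b • tr α R g p v₀ - d • v₀ ∧ b ^ 2 < 4 * d := by
  obtain ⟨v₀, hv0, hv₀, hα₀⟩ := exists_plane α p
  have hne' : ∀ v, ip p v = 0 → α p v = 0 → v ≠ 0 → ∀ μ : ℝ, tr α R g p v ≠ μ • v := by
    intro v hv hαv hv0 μ hμ
    apply hne v hv hαv hv0 μ (α p (fderiv ℝ g p v))
    rw [← hμ, tr]
    abel
  obtain ⟨v₁, hv₁def⟩ : ∃ v₁, v₁ = tr α R g p v₀ := ⟨_, rfl⟩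
  have hv₁ : ip p v₁ = 0 := by rw [hv₁def]; exact tr_tan h hg hp hfix hv₀
  have hα₁ : α p v₁ = 0 := by rw [hv₁def]; exact tr_alpha h hp v₀
  have hom : om α p v₀ v₁ ≠ 0 := by
    intro h0
    obtain ⟨c, hc⟩ := parallel h hp hv₀ hα₀ hv0 hv₁ hα₁ h0
    rw [hv₁def] at hc
    exact hne' v₀ hv₀ hα₀ hv0 c hc
  obtain ⟨a, b, hab⟩ := span_four h hp hv₀ hα₀ hv₁ hα₁ hom (tr_tan h hg hp hfix hv₁)
    (tr_alpha h hp v₁)
  have hab' : tr α R g p v₁ = b • v₁ - (-a) • v₀ := by
    rw [hab]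
    module
  refine ⟨v₀, b, -a, hv₀, hα₀, by rw [← hv₁def]; exact hom, by rw [← hv₁def]; exact hab', ?_⟩
  by_contra hb
  push Not at hb
  set s := Real.sqrt (b ^ 2 - 4 * -a) with hs
  have hss : s * s = b ^ 2 - 4 * -a := Real.mul_self_sqrt (by linarith)
  set r := (b + s) / 2 with hr
  set r' := (b - s) / 2 with hr'
  have hrr : r * r' = -a := by
    rw [hr, hr']
    nlinarith
  have hsum : r + r' = b := by rw [hr, hr']; ring
  have hw : tr α R g p (v₁ - r' • v₀) = r • (v₁ - r' • v₀) := by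
    rw [tr_sub, tr_smul, hab', ← hv₁def, smul_sub, smul_smul, hrr, ← hsum, add_smul]
    abel
  refine hne' (v₁ - r' • v₀) ?_ ?_ ?_ r hw
  · rw [map_sub, map_smul, hv₁, hv₀]; simp
  · rw [map_sub, map_smul, hα₁, hα₀]; simp
  · intro h0
    apply hne' v₀ hv₀ hα₀ hv0 r'
    rw [← hv₁def]
    exact sub_eq_zero.1 h0

/-- Tangent solutions in the contact plane stay there. -/
lemma alpha_const (h : CD α R) {γ w : ℝ → E} (hS : ∀ t, ip (γ t) (γ t) = 1)
    (hγ : ∀ t, HasDerivAt γ (R (γ t)) t)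
    (hw : ∀ t, HasDerivAt w (fderiv ℝ R (γ t) (w t)) t)
    (hwt : ∀ t, 0 ≤ t → ip (γ t) (w t) = 0) :
    ∀ t, 0 ≤ t → α (γ t) (w t) = α (γ 0) (w 0) := by
  intro t ht
  have hd : ∀ s, 0 ≤ s → HasDerivAt (fun s => α (γ s) (w s)) 0 s := by
    intro s hs
    refine (hasDerivAt_alpha h.sα (hγ s) (hw s)).congr_deriv ?_
    have h1 := h.oneR (hS s) (hwt s hs)
    have h2 := h.ker _ (hS s) _ (hwt s hs)
    rw [om] at h2
    linarith
  have := constant_of_has_deriv_right_zero (f := fun s => α (γ s) (w s)) (a := 0) (b := t)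
    (fun s hs => (hd s hs.1).continuousAt.continuousWithinAt)
    (fun s hs => (hd s hs.1).hasDerivWithinAt) t ⟨ht, le_refl t⟩
  exact this

/-- Two solutions with the same initial value agree. -/
lemma lin_unique (h : CD α R) {γ w z : ℝ → E} (hγ : ∀ t, HasDerivAt γ (R (γ t)) t)
    (hw : ∀ t, 0 ≤ t → HasDerivAt w (fderiv ℝ R (γ t) (w t)) t)
    (hz : ∀ t, 0 ≤ t → HasDerivAt z (fderiv ℝ R (γ t) (z t)) t) (h0 : w 0 = z 0) :
    ∀ t, 0 ≤ t → w t = z t := by
  intro t ht
  have hγc : Continuous γ := continuous_iff_continuousAt.2 fun t => (hγ t).continuousAt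
  have hdR : Continuous (fderiv ℝ R) := h.sR.continuous_fderiv (by simp)
  have := lin_zero (L := fun t => fderiv ℝ R (γ t)) (hdR.comp hγc) (z := fun t => w t - z t)
    (fun t ht => ((hw t ht).sub (hz t ht)).congr_deriv (by rw [map_sub]))
    (by rw [h0, sub_self]) t ht
  exact sub_eq_zero.1 this

/-- The characteristic equation is transported along the trajectory. -/
lemma quad_along (h : CD α R) (hg : Co R g) {γ : ℝ → E} (hS : ∀ t, ip (γ t) (γ t) = 1)
    (hγ : ∀ t, HasDerivAt γ (R (γ t)) t) (hfix : ∀ t, g (γ t) = γ t) {v₀ : E} {b d : ℝ}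
    (hv₀ : ip (γ 0) v₀ = 0) (hα₀ : α (γ 0) v₀ = 0)
    (hom : om α (γ 0) v₀ (tr α R g (γ 0) v₀) ≠ 0)
    (hb : tr α R g (γ 0) (tr α R g (γ 0) v₀) = b • tr α R g (γ 0) v₀ - d • v₀) {t : ℝ}
    (ht : 0 ≤ t) {v : E} (hv : ip (γ t) v = 0) (hαv : α (γ t) v = 0) :
    tr α R g (γ t) (tr α R g (γ t) v) = b • tr α R g (γ t) v - d • v := by
  obtain ⟨w₀, hw₀0, hw₀⟩ := lin_exists h hS hγ v₀
  obtain ⟨w₁, hw₁0, hw₁⟩ := lin_exists h hS hγ (tr α R g (γ 0) v₀)
  have ht₀ := tan_of_sol h hS hγ hw₀ (by rw [hw₀0]; exact hv₀)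
  have ht₁ := tan_of_sol h hS hγ hw₁ (by rw [hw₁0]; exact tr_tan h hg (hS 0) (hfix 0) hv₀)
  have ha₀ := alpha_const h hS hγ hw₀ ht₀ t ht
  have ha₁ := alpha_const h hS hγ hw₁ ht₁ t ht
  rw [hw₀0, hα₀] at ha₀
  rw [hw₁0, tr_alpha h (hS 0)] at ha₁
  obtain ⟨c₀, hc₀⟩ : ∃ c₀, c₀ = α (γ 0) (fderiv ℝ g (γ 0) v₀) := ⟨_, rfl⟩
  obtain ⟨c₁, hc₁⟩ : ∃ c₁, c₁ = α (γ 0) (fderiv ℝ g (γ 0) (tr α R g (γ 0) v₀)) := ⟨_, rfl⟩
  have hRs : ∀ t, HasDerivAt (fun t => R (γ t)) (fderiv ℝ R (γ t) (R (γ t))) t := fun t =>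
    hasDerivAt_field h.sR (hγ t)
  have e1 := lin_unique h hγ (w := fun t => fderiv ℝ g (γ t) (w₀ t))
    (z := fun t => w₁ t + c₀ • R (γ t))
    (fun t ht => hg.sol h hS hγ hfix hw₀ (ht₀ t ht))
    (fun t _ => ((hw₁ t).add ((hRs t).const_smul c₀)).congr_deriv (by rw [map_add, map_smul]))
    (by simp only [hw₀0, hw₁0, tr, hc₀]; abel)
  have e2 := lin_unique h hγ (w := fun t => fderiv ℝ g (γ t) (w₁ t))
    (z := fun t => b • w₁ t - d • w₀ t + c₁ • R (γ t))
    (fun t ht => hg.sol h hS hγ hfix hw₁ (ht₁ t ht))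
    (fun t _ => ((((hw₁ t).const_smul b).sub ((hw₀ t).const_smul d)).add
      ((hRs t).const_smul c₁)).congr_deriv (by rw [map_add, map_sub, map_smul, map_smul, map_smul]))
    (by
      simp only [hw₀0, hw₁0, hc₁]
      rw [← hb]
      exact tr_split _ _)
  have e1' : fderiv ℝ g (γ t) (w₀ t) = w₁ t + c₀ • R (γ t) := e1 t ht
  have e2' : fderiv ℝ g (γ t) (w₁ t) = b • w₁ t - d • w₀ t + c₁ • R (γ t) := e2 t ht
  have f1 : tr α R g (γ t) (w₀ t) = w₁ t := by
    rw [tr, e1', map_add, map_smul, ha₁, h.one _ (hS t)]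
    simp
  have f2 : tr α R g (γ t) (w₁ t) = b • w₁ t - d • w₀ t := by
    rw [tr, e2', map_add, map_sub, map_smul, map_smul, map_smul, ha₁, ha₀, h.one _ (hS t)]
    simp
  have hc := om_const h hS hγ hw₁ (z := w₀) (fun t _ => hw₀ t) ht₁ ht₀ t ht
  have hne : om α (γ t) (w₀ t) (w₁ t) ≠ 0 := by
    rw [hc, hw₀0, hw₁0]; exact hom
  obtain ⟨x, y, hxy⟩ := span_four h (hS t) (ht₀ t ht) ha₀ (ht₁ t ht) ha₁ hne hv hαv
  rw [hxy]
  simp only [tr_add, tr_smul, tr_sub, f1, f2]
  module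

/-- The projection to the contact plane. -/
noncomputable def prj (α : E → E →L[ℝ] ℝ) (R : E → E) (v x : E) : E :=
  (v - ip x v • x) - α x (v - ip x v • x) • R x

lemma prj_tan (h : CD α R) {x : E} (hx : ip x x = 1) (v : E) : ip x (prj α R v x) = 0 := by
  rw [prj, map_sub, proj_tan hx, map_smul, h.tan x hx]
  simp

lemma prj_alpha (h : CD α R) {x : E} (hx : ip x x = 1) (v : E) : α x (prj α R v x) = 0 := by
  rw [prj, map_sub, map_smul, h.one x hx]
  simp

lemma prj_eq {x v : E} (hv : ip x v = 0) (hα : α x v = 0) : prj α R v x = v := by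
  rw [prj, proj_eq hv, hα, zero_smul, sub_zero]

lemma prj_cont (h : CD α R) (v : E) : Continuous (prj α R v) := by
  have h1 : Continuous fun x : E => v - ip x v • x := by
    have : Continuous fun x : E => ip x v := ip.continuous.clm_apply continuous_const
    fun_prop
  exact h1.sub ((h.sα.continuous.clm_apply h1).smul h.sR.continuous)

/-- The characteristic equation at limit points. -/
lemma quad_limit (h : CD α R) (hg : Co R g) {b d : ℝ} {x : ℕ → E} {q : E}
    (hx : ∀ n, ip (x n) (x n) = 1)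
    (hquad : ∀ n v, ip (x n) v = 0 → α (x n) v = 0 →
      tr α R g (x n) (tr α R g (x n) v) = b • tr α R g (x n) v - d • v)
    (hlim : Tendsto x atTop (𝓝 q)) {v : E} (hv : ip q v = 0) (hαv : α q v = 0) :
    tr α R g q (tr α R g q v) = b • tr α R g q v - d • v := by
  have hdg : Continuous (fderiv ℝ g) := hg.sm.continuous_fderiv (by simp)
  have hP := prj_cont h v
  have htr : ∀ P : E → E, Continuous P → Continuous fun x => tr α R g x (P x) := by
    intro P hP
    have h1 : Continuous fun x => fderiv ℝ g x (P x) := hdg.clm_apply hP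
    exact h1.sub ((h.sα.continuous.clm_apply h1).smul h.sR.continuous)
  have h1 := htr _ hP
  have h2 := htr _ h1
  have h3 : Continuous fun x => b • tr α R g x (prj α R v x) - d • prj α R v x :=
    (h1.const_smul b).sub (hP.const_smul d)
  have e1 := (h2.tendsto q).comp hlim
  have e2 := (h3.tendsto q).comp hlim
  have e3 : (fun x => tr α R g x (tr α R g x (prj α R v x))) ∘ x =
      (fun x => b • tr α R g x (prj α R v x) - d • prj α R v x) ∘ x := by
    funext n
    exact hquad n _ (prj_tan h (hx n) v) (prj_alpha h (hx n) v)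
  rw [e3] at e1
  have e4 := tendsto_nhds_unique e1 e2
  simp only [prj_eq hv hαv] at e4
  exact e4

/-- Fixed points of `g` are isolated in the local section. -/
lemma isolated (h : CD α R) (hg : Co R g) {q : E} (hq : ip q q = 1) (hfix : g q = q) {b d : ℝ}
    (hb : b ^ 2 < 4 * d)
    (hquad : ∀ v, ip q v = 0 → α q v = 0 →
      tr α R g q (tr α R g q v) = b • tr α R g q v - d • v) :
    ∀ᶠ x in 𝓝[≠] q, ¬ (ip x x = 1 ∧ g x = x ∧ α q (x - q) = 0) := by
  set β := ip q (fderiv ℝ g q q) with hβ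
  let Ψ : E → E := fun x => (x - g x) + α q (x - q) • R q + (ip x x - 1) • ((β / 2) • q)
  let Ψ' : E →L[ℝ] E := (ContinuousLinearMap.id ℝ E - fderiv ℝ g q) + (α q).smulRight (R q) +
    ((2 : ℝ) • ip q).smulRight ((β / 2) • q)
  have hΨ : HasFDerivAt Ψ Ψ' q := by
    have h1 : HasFDerivAt (fun x : E => x - g x) (ContinuousLinearMap.id ℝ E - fderiv ℝ g q) q :=
      (hasFDerivAt_id q).sub ((hg.sm.differentiable (by simp)) q).hasFDerivAt
    have h2 : HasFDerivAt (fun x : E => α q (x - q) • R q) ((α q).smulRight (R q)) q := by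
      have h3 : HasFDerivAt (fun x : E => α q (x - q)) (α q) q :=
        (α q).hasFDerivAt.comp q ((hasFDerivAt_id q).sub_const q)
      exact h3.smul_const (R q)
    have h3 : HasFDerivAt (fun x : E => (ip x x - 1) • ((β / 2) • q))
        (((2 : ℝ) • ip q).smulRight ((β / 2) • q)) q := by
      have h4 : HasFDerivAt (fun x : E => ip x x - 1) ((2 : ℝ) • ip q) q := by
        have h5 := (ip.hasFDerivAt (x := q)).clm_apply (hasFDerivAt_id q)
        refine (h5.sub_const 1).congr_fderiv ?_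
        ext v
        simp [ip_comm v q]
        ring
      exact h4.smul_const _
    exact (h1.add h2).add h3
  have hΨv : ∀ v, Ψ' v = v - fderiv ℝ g q v + α q v • R q + (2 * ip q v) • ((β / 2) • q) :=
    fun v => by simp [Ψ']
  have hinj : LinearMap.ker (Ψ' : E →ₗ[ℝ] E) = ⊥ := by
    rw [LinearMap.ker_eq_bot']
    intro v hv
    have hv' : Ψ' v = 0 := hv
    rw [hΨv] at hv'
    have htan : ∀ u, ip q u = 0 → ip q (fderiv ℝ g q u) = 0 := by
      intro u hu
      have := hg.tan hq hu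
      rwa [hfix] at this
    have h1 := congrArg (ip q) hv'
    have h2 : ip q (fderiv ℝ g q v) = ip q v * β := by
      have h3 := htan (v - ip q v • q) (proj_tan hq v)
      rw [map_sub, map_sub, map_smul, map_smul, ← hβ, smul_eq_mul] at h3
      linarith
    simp only [map_add, map_sub, map_smul, smul_eq_mul, h2, h.tan q hq, hq, map_zero] at h1
    have hv0 : ip q v = 0 := by linarith
    rw [hv0] at hv'
    simp only [mul_zero, zero_smul, add_zero] at hv'
    -- split off the Reeb component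
    obtain ⟨a, ha⟩ : ∃ a, a = α q v := ⟨_, rfl⟩
    obtain ⟨w, hw⟩ : ∃ w, w = v - a • R q := ⟨_, rfl⟩
    have hvw : v = w + a • R q := by rw [hw]; abel
    have hwt : ip q w = 0 := by rw [hw, map_sub, map_smul, h.tan q hq, hv0]; simp
    have hwα : α q w = 0 := by rw [hw, map_sub, map_smul, h.one q hq, ← ha]; simp
    have hDR : fderiv ℝ g q (R q) = R q := by rw [hg.com q hq, hfix]
    have h4 : fderiv ℝ g q w = w + a • R q := by
      rw [← ha] at hv'
      have h5 : fderiv ℝ g q v = fderiv ℝ g q w + a • R q := by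
        rw [hvw, map_add, map_smul, hDR]
      rw [h5] at hv'
      rw [hvw] at hv'
      have h6 : w + a • R q - fderiv ℝ g q w = 0 := by
        rw [← hv']
        abel
      exact (sub_eq_zero.1 h6).symm
    have h5 : tr α R g q w = w := by
      rw [tr, h4, map_add, map_smul, hwα, h.one q hq]
      simp
    have h7 := hquad w hwt hwα
    rw [h5, h5] at h7
    have h8 : (1 - b + d) • w = 0 := by
      have : (1 - b + d) • w = w - (b • w - d • w) := by module
      rw [this, ← h7, sub_self]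
    have hw0 : w = 0 := by
      rcases smul_eq_zero.1 h8 with h9 | h9
      · exfalso
        nlinarith [sq_nonneg (b - 2)]
      · exact h9
    rw [hw0, map_zero, zero_add] at h4
    have h10 := congrArg (α q) h4
    rw [map_zero, map_smul, h.one q hq, smul_eq_mul, mul_one] at h10
    rw [hvw, hw0, ← h10, zero_smul, add_zero]
  obtain ⟨K, _, hK⟩ := (Ψ' : E →ₗ[ℝ] E).exists_antilipschitzWith hinj
  have hev := hΨ.eventually_ne (c := (0 : E)) ⟨K, hK⟩
  filter_upwards [hev] with x hx hcon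
  apply hx
  simp only [Ψ]
  rw [hcon.2.1, hcon.2.2, hcon.1]
  simp

end Pool.Agent.Lib.MP_61e5a9_gt
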