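import Pool.Agent.Lib.MP_61e5a9_gt.Main
import Pool.Agent.Lib.MP_61e5a9_gt.Fix2

set_option autoImplicit false

/-! The main theorem on fixed points of strict contact symmetries. -/

namespace Pool.Agent.Lib.MP_61e5a9_gt

open scoped ContDiff Topology NNReal
open Set Filter

variable {α : E → E →L[ℝ] ℝ} {R : E → E} {g : E → E}

/-- Trajectories starting near `q` hit the local section through `q` after a short time. -/
lemma section_hit (h : CD α R) {φ : ℝ → E → E} (hc : Continuous (fun z : ℝ × E => φ z.1 z.2))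
    (h0 : ∀ x, φ 0 x = x)
    (hd : ∀ p, ip p p = 1 → ∀ t, HasDerivAt (fun t => φ t p) (R (φ t p)) t) {q : E}
    (hq : ip q q = 1) {ε : ℝ} (hε : 0 < ε) :
    ∃ δ > 0, ∀ x, ip x x = 1 → dist x q < δ → ∃ s, |s| ≤ ε ∧ α q (φ s x - q) = 0 := by
  have hG : Continuous (fun z : ℝ × E => α q (R (φ z.1 z.2))) :=
    (α q).continuous.comp (h.sR.continuous.comp hc)
  have hG0 : ∀ᶠ z in 𝓝 ((0 : ℝ), q), 1 / 2 < α q (R (φ z.1 z.2)) := by
    apply hG.continuousAt.eventually_const_lt
    simp only [h0, h.one q hq]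
    norm_num
  obtain ⟨η, hη, hηG⟩ := Metric.eventually_nhds_iff.1 hG0
  obtain ⟨ε', hε'def⟩ : ∃ ε', ε' = min ε (η / 2) := ⟨_, rfl⟩
  have hε'pos : 0 < ε' := by rw [hε'def]; exact lt_min hε (by linarith)
  have hε'ε : ε' ≤ ε := by rw [hε'def]; exact min_le_left _ _
  have hε'η : ε' ≤ η / 2 := by rw [hε'def]; exact min_le_right _ _
  have hf0 : ∀ᶠ x in 𝓝 q, |α q (x - q)| < ε' / 2 := by
    have hcont : Continuous fun x : E => |α q (x - q)| :=
      continuous_abs.comp ((α q).continuous.comp (continuous_id.sub continuous_const))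
    apply hcont.continuousAt.eventually_lt_const
    simp only [sub_self, map_zero, abs_zero]
    linarith
  obtain ⟨δ₂, hδ₂, hδ₂f⟩ := Metric.eventually_nhds_iff.1 hf0
  refine ⟨min η δ₂, lt_min hη hδ₂, fun x hx hxq => ?_⟩
  have hxη : dist x q < η := hxq.trans_le (min_le_left _ _)
  have hf := hδ₂f (hxq.trans_le (min_le_right _ _))
  have hder : ∀ s, HasDerivAt (fun s => α q (φ s x - q)) (α q (R (φ s x))) s := by
    intro s
    exact (α q).hasFDerivAt.comp_hasDerivAt s ((hd x hx s).sub_const q)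
  have hcont : Continuous fun s => α q (φ s x - q) :=
    continuous_iff_continuousAt.2 fun s => (hder s).continuousAt
  have hge : ∀ s ∈ Icc (-ε') ε', 1 / 2 < α q (R (φ s x)) := by
    intro s hs
    have : dist ((s, x) : ℝ × E) (0, q) < η := by
      rw [Prod.dist_eq]
      apply max_lt _ hxη
      rw [Real.dist_eq, sub_zero, abs_lt]
      constructor <;> linarith [hs.1, hs.2]
    exact hηG this
  have hmv := (convex_Icc (-ε') ε').mul_sub_le_image_sub_of_le_deriv (f := fun s => α q (φ s x - q))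
    hcont.continuousOn (fun s _ => (hder s).differentiableAt.differentiableWithinAt) (C := 1 / 2)
    (fun s hs => by
      rw [(hder s).deriv]
      exact (hge s (interior_subset hs)).le)
  have hz : α q (φ 0 x - q) = α q (x - q) := by rw [h0]
  have habs := abs_lt.1 hf
  have hp1 := hmv 0 ⟨by linarith, by linarith⟩ ε' ⟨by linarith, le_refl _⟩ hε'pos.le
  have hp2 := hmv (-ε') ⟨le_refl _, by linarith⟩ 0 ⟨by linarith, by linarith⟩ (by linarith)
  simp only [h0] at hp1 hp2
  obtain ⟨s, hs, hs0⟩ := intermediate_value_Icc (a := -ε') (b := ε') (by linarith)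
    hcont.continuousOn (show (0 : ℝ) ∈ Icc _ _ from ⟨by linarith [habs.2], by linarith [habs.1]⟩)
  exact ⟨s, abs_le.2 ⟨by linarith [hs.1], by linarith [hs.2]⟩, hs0⟩

/-- Let `g` be a symmetry of the Reeb field with a fixed point `p` at which `Dg` has no real
eigenvector in the plane normal to the Reeb direction. Then the Reeb orbit through `p` is closed
and no real multiplier lies off the unit circle. -/
theorem main_fixed (h : CD α R) (hg : Co R g) {p : E} (hp : ip p p = 1) (hfix : g p = p)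
    (hne : ∀ v, ip p v = 0 → α p v = 0 → v ≠ 0 → ∀ μ c : ℝ,
      fderiv ℝ g p v ≠ μ • v + c • R p) :
    ∃ γ : ℝ → E, ∃ T : ℝ, 0 < T ∧ γ 0 = p ∧ (∀ t, ip (γ t) (γ t) = 1) ∧
      (∀ t, HasDerivAt γ (R (γ t)) t) ∧ γ T = γ 0 ∧
      ∀ μ : ℝ, ∀ w : ℝ → E, ip (γ 0) (w 0) = 0 → α (γ 0) (w 0) = 0 → w 0 ≠ 0 →
        (∀ t, HasDerivAt w (fderiv ℝ R (γ t) (w t)) t) → w T = μ • w 0 → |μ| = 1 := by
  obtain ⟨φ, hc, h0, hS, hd⟩ := reeb_flow h
  have hshift : ∀ s t, φ (s + t) p = φ s (φ t p) := by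
    intro s t
    have h1 := reeb_unique h (γ := fun s => φ (s + t) p) (δ := fun s => φ s (φ t p))
      (fun s => hS _ p hp) (fun s => (hd p hp (s + t)).comp_add_const s t)
      (fun s => hS _ _ (hS t p hp)) (fun s => hd _ (hS t p hp) s) (t₀ := 0)
      (by simp only [zero_add, h0])
    exact congrFun h1 s
  have hfixall : ∀ t, g (φ t p) = φ t p :=
    hg.fix h (γ := fun t => φ t p) (fun t => hS t p hp) (hd p hp) (by simp only [h0]; exact hfix)
  obtain ⟨v₀, b, d, hv₀, hα₀, hom, hb, hb4⟩ := quad_at h hg hp hfix hne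
  have hquad : ∀ t, 0 ≤ t → ∀ v, ip (φ t p) v = 0 → α (φ t p) v = 0 →
      tr α R g (φ t p) (tr α R g (φ t p) v) = b • tr α R g (φ t p) v - d • v := by
    intro t ht v hv hαv
    exact quad_along h hg (γ := fun t => φ t p) (fun t => hS t p hp) (hd p hp) hfixall
      (v₀ := v₀) (b := b) (by simp only [h0]; exact hv₀) (by simp only [h0]; exact hα₀)
      (by simp only [h0]; exact hom) (by simp only [h0]; exact hb) ht hv hαv
  -- a limit point
  obtain ⟨q, hq, ψ, hψ, hlim⟩ := sphere_compact.tendsto_subseq (x := fun n : ℕ => φ (n : ℝ) p)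
    (fun n => hS _ p hp)
  have hq1 : ip q q = 1 := hq
  have hlim' : Tendsto (fun n => φ (ψ n : ℝ) p) atTop (𝓝 q) := hlim
  have hgq : g q = q := by
    have e1 := (hg.sm.continuous.tendsto q).comp hlim'
    have e2 : g ∘ (fun n => φ (ψ n : ℝ) p) = fun n => φ (ψ n : ℝ) p := by
      funext n
      exact hfixall _
    rw [e2] at e1
    exact tendsto_nhds_unique e1 hlim'
  have hquadq := fun v hv hαv => quad_limit h hg (b := b) (d := d)
    (x := fun n => φ (ψ n : ℝ) p) (q := q)
    (fun n => hS _ p hp) (fun n => hquad _ (Nat.cast_nonneg _)) hlim' (v := v) hv hαv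
  have hiso := isolated h hg hq1 hgq hb4 hquadq
  rw [eventually_nhdsWithin_iff, Metric.eventually_nhds_iff] at hiso
  obtain ⟨ρ, hρ, hρiso⟩ := hiso
  -- a neighbourhood in which short trajectories stay close to `q`
  have hcl : ∀ᶠ z in 𝓝 ((0 : ℝ), q), dist (φ z.1 z.2) q < ρ := by
    have hcd : Continuous fun z : ℝ × E => dist (φ z.1 z.2) q := hc.dist continuous_const
    apply hcd.continuousAt.eventually_lt_const
    simp only [h0, dist_self]
    exact hρ
  obtain ⟨ρ₂, hρ₂, hρ₂c⟩ := Metric.eventually_nhds_iff.1 hcl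
  obtain ⟨δ, hδ, hδhit⟩ := section_hit h hc h0 hd hq1 (ε := min 1 (ρ₂ / 2))
    (lt_min one_pos (by linarith))
  have hhit : ∀ᶠ n in atTop, ∃ s : ℝ, |s| ≤ 1 ∧ φ (s + ψ n) p = q := by
    have e1 := Metric.tendsto_nhds.1 hlim' (min δ ρ₂) (lt_min hδ hρ₂)
    filter_upwards [e1] with n hn
    have hn1 : dist (φ (ψ n : ℝ) p) q < δ := hn.trans_le (min_le_left _ _)
    have hn2 : dist (φ (ψ n : ℝ) p) q < ρ₂ := hn.trans_le (min_le_right _ _)
    obtain ⟨s, hs, hs0⟩ := hδhit _ (hS _ p hp) hn1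
    refine ⟨s, hs.trans (min_le_left _ _), ?_⟩
    rw [hshift]
    by_contra hcon
    have hsρ : |s| < ρ₂ := (hs.trans (min_le_right _ _)).trans_lt (by linarith)
    have hnear : dist (φ s (φ (ψ n : ℝ) p)) q < ρ := by
      have : dist ((s, φ (ψ n : ℝ) p) : ℝ × E) (0, q) < ρ₂ := by
        rw [Prod.dist_eq]
        apply max_lt _ hn2
        rw [Real.dist_eq, sub_zero]
        exact hsρ
      exact hρ₂c this
    apply hρiso hnear hcon
    refine ⟨hS _ _ (hS _ p hp), ?_, hs0⟩
    rw [← hshift]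
    exact hfixall _
  obtain ⟨n₀, hn₀⟩ := eventually_atTop.1 hhit
  obtain ⟨s₁, hs₁, hq₁⟩ := hn₀ n₀ le_rfl
  obtain ⟨s₂, hs₂, hq₂⟩ := hn₀ (n₀ + 3) (by omega)
  have hψ3 : ψ n₀ + 3 ≤ ψ (n₀ + 3) := by
    have h1 := hψ (show n₀ < n₀ + 1 by omega)
    have h2 := hψ (show n₀ + 1 < n₀ + 2 by omega)
    have h3 := hψ (show n₀ + 2 < n₀ + 3 by omega)
    omega
  have hψ3' : (ψ n₀ : ℝ) + 3 ≤ (ψ (n₀ + 3) : ℝ) := by exact_mod_cast hψ3
  set t₁ : ℝ := s₁ + ψ n₀ with ht₁
  set t₂ : ℝ := s₂ + ψ (n₀ + 3) with ht₂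
  have hT : 0 < t₂ - t₁ := by
    have a1 := (abs_le.1 hs₁).2
    have a2 := (abs_le.1 hs₂).1
    linarith
  have hper : ∀ t, φ (t + (t₂ - t₁)) p = φ t p := by
    intro t
    have h1 := reeb_unique h (γ := fun t => φ (t + (t₂ - t₁)) p) (δ := fun t => φ t p)
      (fun s => hS _ p hp) (fun s => (hd p hp (s + (t₂ - t₁))).comp_add_const s _)
      (fun s => hS _ _ hp) (fun s => hd _ hp s) (t₀ := t₁)
      (by
        have : t₁ + (t₂ - t₁) = t₂ := by ring
        simp only [this, hq₁, hq₂])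
    exact congrFun h1 t
  refine ⟨fun t => φ t p, t₂ - t₁, hT, h0 p, fun t => hS t p hp, hd p hp, ?_, ?_⟩
  · have := hper 0
    rwa [zero_add] at this
  · intro μ w hw0 hαw hwne hw hwT
    simp only [h0] at hw0 hαw
    have hperT : φ (t₂ - t₁) p = p := by
      have := hper 0
      rw [zero_add, h0] at this
      exact this
    have hwt := tan_of_sol h (γ := fun t => φ t p) (fun t => hS t p hp) (hd p hp) hw
      (by simp only [h0]; exact hw0)
    have hz : ∀ t, 0 ≤ t → HasDerivAt (fun t => fderiv ℝ g (φ t p) (w t))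
        (fderiv ℝ R (φ t p) (fderiv ℝ g (φ t p) (w t))) t := fun t ht =>
      hg.sol h (γ := fun t => φ t p) (fun t => hS t p hp) (hd p hp) hfixall hw (hwt t ht)
    have hzt : ∀ t, 0 ≤ t → ip (φ t p) (fderiv ℝ g (φ t p) (w t)) = 0 := by
      intro t ht
      have := hg.tan (hS t p hp) (hwt t ht)
      rwa [hfixall t] at this
    have hconst := om_const h (γ := fun t => φ t p) (fun t => hS t p hp) (hd p hp) hw
      (z := fun t => fderiv ℝ g (φ t p) (w t)) hz hwt hzt (t₂ - t₁) hT.le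
    simp only [hperT, h0, hwT, map_smul, om_smul_left, om_smul_right] at hconst
    have hne0 : om α p (fderiv ℝ g p (w 0)) (w 0) ≠ 0 := by
      intro hcon
      rw [om_swap] at hcon
      have hsplit := tr_split (α := α) (R := R) (g := g) p (w 0)
      have h5 : om α p (w 0) (tr α R g p (w 0)) = 0 := by
        have h6 := h.ker p hp (w 0) hw0
        have h7 := om_swap α p (R p) (w 0)
        rw [tr, om_sub_right, om_smul_right, h7, h6]
        linarith
      obtain ⟨c, hcc⟩ := parallel h hp hw0 hαw hwne (tr_tan h hg hp hfix hw0)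
        (tr_alpha h hp _) h5
      rw [hcc] at hsplit
      exact hne _ hw0 hαw hwne c _ hsplit
    have h2 : μ * μ = 1 := by
      have h3 : (μ * μ - 1) * om α p (fderiv ℝ g p (w 0)) (w 0) = 0 := by
        linear_combination hconst
      rcases mul_eq_zero.1 h3 with h4 | h4
      · linarith
      · exact absurd h4 hne0
    have h3 : |μ| * |μ| = 1 := by rw [abs_mul_abs_self]; exact h2
    nlinarith [abs_nonneg μ]

end Pool.Agent.Lib.MP_61e5a9_gt
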