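import Pool.Agent.Lib.MP_61e5a9_gt.Sym
import Pool.Agent.Lib.MP_35abc2_gt.T1_Flow

set_option autoImplicit false

/-! Global Reeb flow on the unit sphere and solutions of the linearised equation. -/

namespace Pool.Agent.Lib.MP_61e5a9_gt

open scoped ContDiff Topology NNReal
open Set Filter

variable {α : E → E →L[ℝ] ℝ} {R : E → E}

lemma norm_le_one_of_sphere {p : E} (hp : ip p p = 1) : ‖p‖ ≤ 1 := by
  rw [pi_norm_le_iff_of_nonneg (by norm_num)]
  intro i
  rw [ip_self] at hp
  have h2 : p i ^ 2 ≤ ∑ j, p j ^ 2 :=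
    Finset.single_le_sum (f := fun j => p j ^ 2) (fun j _ => sq_nonneg (p j)) (Finset.mem_univ i)
  rw [hp] at h2
  rw [Real.norm_eq_abs]
  exact (sq_le_one_iff_abs_le_one (p i)).1 h2

/-- Uniqueness of Reeb trajectories on the sphere. -/
lemma reeb_unique (h : CD α R) {γ δ : ℝ → E} (hγS : ∀ t, ip (γ t) (γ t) = 1)
    (hγ : ∀ t, HasDerivAt γ (R (γ t)) t) (hδS : ∀ t, ip (δ t) (δ t) = 1)
    (hδ : ∀ t, HasDerivAt δ (R (δ t)) t) {t₀ : ℝ} (h0 : γ t₀ = δ t₀) : γ = δ := by
  obtain ⟨K, hK⟩ := (h.sR.contDiffOn (s := Metric.closedBall (0 : E) 1)).exists_lipschitzOnWith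
    (by simp) (convex_closedBall _ _) (isCompact_closedBall _ _)
  refine ODE_solution_unique_univ (v := fun _ => R) (s := fun _ => Metric.closedBall (0 : E) 1)
    (K := K) (t₀ := t₀) (fun _ => hK) (fun t => ⟨hγ t, ?_⟩) (fun t => ⟨hδ t, ?_⟩) h0
  · rw [mem_closedBall_zero_iff]
    exact norm_le_one_of_sphere (hγS t)
  · rw [mem_closedBall_zero_iff]
    exact norm_le_one_of_sphere (hδS t)

/-- The global Reeb flow on the sphere. -/
lemma reeb_flow (h : CD α R) : ∃ φ : ℝ → E → E, Continuous (fun z : ℝ × E => φ z.1 z.2) ∧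
    (∀ x, φ 0 x = x) ∧ (∀ t p, ip p p = 1 → ip (φ t p) (φ t p) = 1) ∧
    ∀ p, ip p p = 1 → ∀ t, HasDerivAt (fun t => φ t p) (R (φ t p)) t := by
  let χ : ContDiffBump (0 : E) := ⟨2, 3, by norm_num, by norm_num⟩
  let V : E → E := fun x => χ x • (ip x x • R x - ip x (R x) • x)
  have hipc : ContDiff ℝ ∞ (fun x : E => ip x) := ip.contDiff
  have hVs : ContDiff ℝ ∞ V := by
    refine χ.contDiff.smul (((hipc.clm_apply contDiff_id).smul h.sR).sub
      ((hipc.clm_apply h.sR).smul contDiff_id))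
  have hVc : HasCompactSupport V := by
    have : HasCompactSupport (χ : E → ℝ) := χ.hasCompactSupport
    exact this.smul_right
  obtain ⟨K, hK⟩ := hVs.lipschitzWith_of_hasCompactSupport hVc (by simp)
  obtain ⟨φ, hc, h0, hd⟩ := Pool.Agent.RS.tk_flow (fun _ : ℝ => V) K (fun _ => hK)
    (fun _ => continuous_const) 0
  have hS : ∀ t p, ip p p = 1 → ip (φ t p) (φ t p) = 1 := by
    intro t p hp
    have hder : ∀ s, HasDerivAt (fun s => ip (φ s p) (φ s p)) 0 s := by
      intro s
      refine (hasDerivAt_ip (hd s p) (hd s p)).congr_deriv ?_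
      have h1 : ip (φ s p) (V (φ s p)) = 0 := by
        simp only [V, map_smul, map_sub, smul_eq_mul]
        ring
      rw [ip_comm (V (φ s p)), h1, add_zero]
    have hcst := is_const_of_deriv_eq_zero (f := fun s => ip (φ s p) (φ s p))
        (fun s => (hder s).differentiableAt) (fun s => (hder s).deriv) t 0
    have hcst' : ip (φ t p) (φ t p) = ip (φ 0 p) (φ 0 p) := hcst
    rw [hcst', h0, hp]
  refine ⟨φ, hc, h0, hS, fun p hp t => ?_⟩
  have h1 := hd t p
  have h2 : V (φ t p) = R (φ t p) := by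
    have hq := hS t p hp
    have h3 : χ (φ t p) = 1 := by
      apply χ.one_of_mem_closedBall
      rw [mem_closedBall_zero_iff]
      exact (norm_le_one_of_sphere hq).trans (by norm_num [χ])
    simp only [V, h3, hq, h.tan _ hq, one_smul, zero_smul, sub_zero]
  rw [h2] at h1
  exact h1

/-- Existence of global solutions of the linearised Reeb equation. -/
lemma lin_exists (h : CD α R) {γ : ℝ → E} (hS : ∀ t, ip (γ t) (γ t) = 1)
    (hγ : ∀ t, HasDerivAt γ (R (γ t)) t) (v : E) :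
    ∃ w : ℝ → E, w 0 = v ∧ ∀ t, HasDerivAt w (fderiv ℝ R (γ t) (w t)) t := by
  have hγc : Continuous γ := continuous_iff_continuousAt.2 fun t => (hγ t).continuousAt
  have hdR : Continuous (fderiv ℝ R) := h.sR.continuous_fderiv (by simp)
  obtain ⟨C, hC⟩ := (isCompact_closedBall (0 : E) 1).exists_bound_of_continuousOn
    (f := fderiv ℝ R) hdR.continuousOn
  have hb : ∀ t, ‖fderiv ℝ R (γ t)‖₊ ≤ Real.toNNReal C := by
    intro t
    have h1 := hC (γ t) (by
      rw [mem_closedBall_zero_iff]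
      exact norm_le_one_of_sphere (hS t))
    rw [← NNReal.coe_le_coe, coe_nnnorm]
    exact h1.trans (Real.le_coe_toNNReal C)
  obtain ⟨φ, _, h0, hd⟩ := Pool.Agent.RS.tk_flow (fun t x => fderiv ℝ R (γ t) x)
    (Real.toNNReal C) (fun t => (fderiv ℝ R (γ t)).lipschitz.weaken (hb t))
    (fun x => (hdR.comp hγc).clm_apply continuous_const) 0
  exact ⟨fun t => φ t v, h0 v, fun t => hd t v⟩

end Pool.Agent.Lib.MP_61e5a9_gt
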