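import Pool.Agent.Lib.MP_61e5a9_gt.Sym

set_option autoImplicit false

namespace Pool.Agent.Lib.MP_61e5a9_gt

open scoped ContDiff

variable {α : E → E →L[ℝ] ℝ} {R : E → E} {X : E → E}

/-- A non-unimodular multiplier forces the eigenvector into the kernel of `DY`. -/
lemma kernel_of_mult (h : CD α R) (hX : SF α X) {γ w : ℝ → E} {T μ ε : ℝ} (hT : 0 < T)
    (hS : ∀ t, ip (γ t) (γ t) = 1) (hγ : ∀ t, HasDerivAt γ (R (γ t)) t) (hper : γ T = γ 0)
    (hY : ∀ t, fY α R X (γ t) = 0) (hε : ε ≠ 0)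
    (hsemi : ∀ t u, ip (γ t) u = 0 → 0 ≤ ε * om α (γ t) (fderiv ℝ (fY α R X) (γ t) u) u)
    (hw0 : ip (γ 0) (w 0) = 0) (hw : ∀ t, HasDerivAt w (fderiv ℝ R (γ t) (w t)) t)
    (hwT : w T = μ • w 0) (hμ : |μ| ≠ 1) :
    ∀ t, 0 ≤ t → fderiv ℝ (fY α R X) (γ t) (w t) = 0 := by
  have hwt := tan_of_sol h hS hγ hw hw0
  have hYs := fY_smooth h hX
  have hdY : ContDiff ℝ ∞ (fderiv ℝ (fY α R X)) := hYs.fderiv_right (by simp)
  have hz : ∀ t, 0 ≤ t → HasDerivAt (fun t => fderiv ℝ (fY α R X) (γ t) (w t))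
      (fderiv ℝ R (γ t) (fderiv ℝ (fY α R X) (γ t) (w t))) t := by
    intro t ht
    have h1 : HasDerivAt (fun s => fderiv ℝ (fY α R X) (γ s))
        (fderiv ℝ (fderiv ℝ (fY α R X)) (γ t) (R (γ t))) t :=
      ((hdY.differentiable (by simp)) (γ t)).hasFDerivAt.comp_hasDerivAt t (hγ t)
    refine (h1.clm_apply (hw t)).congr_deriv ?_
    exact comm_DY h hX (hS t) (hwt t ht) (hY t)
  have htanDY : ∀ t u, ip (γ t) u = 0 → ip (γ t) (fderiv ℝ (fY α R X) (γ t) u) = 0 := by
    intro t u hu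
    have := tan_deriv hYs (fun q hq => fY_tan h hX hq) (hS t) hu
    rw [hY t, map_zero, zero_add] at this
    exact this
  have hconst := om_const h hS hγ hw (z := fun t => fderiv ℝ (fY α R X) (γ t) (w t)) hz hwt
    (fun t ht => htanDY t _ (hwt t ht))
  have hk : om α (γ 0) (fderiv ℝ (fY α R X) (γ 0) (w 0)) (w 0) = 0 := by
    have h1 := hconst T hT.le
    simp only [hper, hwT, map_smul, om_smul_left, om_smul_right] at h1
    by_contra hne
    have h2 : μ * μ = 1 := by
      have : (μ * μ - 1) * om α (γ 0) (fderiv ℝ (fY α R X) (γ 0) (w 0)) (w 0) = 0 := by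
        linear_combination h1
      rcases mul_eq_zero.1 this with h3 | h3
      · linarith
      · exact absurd h3 hne
    apply hμ
    have h3 : |μ| * |μ| = 1 := by rw [abs_mul_abs_self]; exact h2
    nlinarith [abs_nonneg μ]
  intro t ht
  have hq : om α (γ t) (fderiv ℝ (fY α R X) (γ t) (w t)) (w t) = 0 := by
    have := hconst t ht
    rw [this, hk]
  have hsym : ∀ u v, ip (γ t) u = 0 → ip (γ t) v = 0 →
      om α (γ t) (fderiv ℝ (fY α R X) (γ t) u) v = om α (γ t) (fderiv ℝ (fY α R X) (γ t) v) u := by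
    intro u v hu hv
    have h1 := fY_lie h hX (hS t) hu hv
    rw [hY t, dom_zero, zero_add] at h1
    have h2 := om_swap α (γ t) u (fderiv ℝ (fY α R X) (γ t) v)
    linarith
  apply h.uniq (γ t) (hS t)
  · exact htanDY t _ (hwt t ht)
  · have := fY_alpha_deriv h hX (hS t) (hwt t ht)
    rw [hY t, map_zero, zero_add] at this
    exact this
  · intro v hv
    by_contra hne
    set a := ε * om α (γ t) (fderiv ℝ (fY α R X) (γ t) (w t)) v with ha
    set b := ε * om α (γ t) (fderiv ℝ (fY α R X) (γ t) v) v with hb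
    have ha0 : a ≠ 0 := mul_ne_zero hε hne
    have key : ∀ s : ℝ, 0 ≤ b + 2 * s * a := by
      intro s
      have h1 := hsemi t (v + s • w t) (by rw [map_add, map_smul, hv, hwt t ht]; simp)
      rw [map_add, map_smul, om_add_left, om_add_right, om_add_right, om_smul_left,
        om_smul_left, om_smul_right, om_smul_right, hq, hsym v (w t) hv (hwt t ht)] at h1
      rw [hb, ha]
      linarith
    have h2 := key (-(b + 1) / (2 * a))
    have h3 : b + 2 * (-(b + 1) / (2 * a)) * a = -1 := by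
      field_simp
      ring
    rw [h3] at h2
    linarith

/-- Second derivative test. -/
lemma second_deriv_test {φ φ' : ℝ → ℝ} {D : ℝ} (h1 : ∀ s, HasDerivAt φ (φ' s) s)
    (h2 : HasDerivAt φ' D 0) (hmax : ∀ s, φ s ≤ φ 0) : D ≤ 0 := by
  by_contra hD
  push Not at hD
  have hd : deriv φ = φ' := by funext s; exact (h1 s).deriv
  have hdd : deriv (deriv φ) 0 = D := by rw [hd]; exact h2.deriv
  have hloc : IsLocalMax φ 0 := Filter.Eventually.of_forall hmax
  have h0 : deriv φ 0 = 0 := hloc.deriv_eq_zero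
  have hmin : IsLocalMin φ 0 := isLocalMin_of_deriv_deriv_pos (by rw [hdd]; exact hD) h0
    (h1 0).continuousAt
  have heq : φ =ᶠ[nhds 0] fun _ => φ 0 := by
    filter_upwards [hmin] with s hs
    exact le_antisymm (hmax s) hs
  have heq2 : deriv φ =ᶠ[nhds 0] deriv fun _ => φ 0 := heq.deriv
  have : deriv (deriv φ) 0 = 0 := by
    rw [heq2.deriv_eq]
    simp
  linarith

/-- At an extremum of the Hamiltonian the field `Y` vanishes. -/
lemma fY_zero_of_ext (h : CD α R) (hX : SF α X) {p : E} {ε : ℝ} (hε : ε ≠ 0)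
    (hp : ip p p = 1) (hext : ∀ q, ip q q = 1 → ε * ham α X q ≤ ε * ham α X p) :
    fY α R X p = 0 := by
  apply h.uniq p hp _ (fY_tan h hX hp) (fY_alpha h hp)
  intro v hv
  have hs := sig_hasDerivAt_zero p v
  have hf : HasDerivAt (fun s : ℝ => ε * ham α X (sig p v s))
      (ε * fderiv ℝ (ham α X) (sig p v 0) v) 0 :=
    ((((ham_smooth h hX).differentiable (by simp)) _).hasFDerivAt.comp_hasDerivAt 0 hs).const_mul ε
  have hloc : IsLocalMax (fun s : ℝ => ε * ham α X (sig p v s)) 0 := by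
    refine Filter.Eventually.of_forall fun s => ?_
    have := hext _ (sig_mem hp hv s)
    simpa [sig_zero] using this
  have h0 := hloc.hasDerivAt_eq_zero hf
  rw [sig_zero] at h0
  have h1 : fderiv ℝ (ham α X) p v = 0 := by
    rcases mul_eq_zero.1 h0 with h2 | h2
    · exact absurd h2 hε
    · exact h2
  have h2 := fY_ker h hX hp hv
  rw [h1] at h2
  linarith

/-- At an extremum of the Hamiltonian the Hessian is semidefinite. -/
lemma semi_of_ext (h : CD α R) (hX : SF α X) {p : E} {ε : ℝ} (hε : ε ≠ 0)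
    (hp : ip p p = 1) (hext : ∀ q, ip q q = 1 → ε * ham α X q ≤ ε * ham α X p)
    {u : E} (hu : ip p u = 0) :
    0 ≤ ε * om α p (fderiv ℝ (fY α R X) p u) u := by
  have hY := fY_zero_of_ext h hX hε hp hext
  have h1 : ∀ s, HasDerivAt (fun s : ℝ => ε * ham α X (sig p u s))
      (-(ε * om α (sig p u s) (fY α R X (sig p u s)) (sig' p u s))) s := by
    intro s
    have hf : HasDerivAt (fun s : ℝ => ε * ham α X (sig p u s))
        (ε * fderiv ℝ (ham α X) (sig p u s) (sig' p u s)) s :=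
      ((((ham_smooth h hX).differentiable (by simp)) _).hasFDerivAt.comp_hasDerivAt s
        (sig_hasDerivAt p u s)).const_mul ε
    refine hf.congr_deriv ?_
    have := fY_ker h hX (sig_mem hp hu s) (sig_tan hp hu s)
    have h2 : fderiv ℝ (ham α X) (sig p u s) (sig' p u s) =
      - om α (sig p u s) (fY α R X (sig p u s)) (sig' p u s) := by linarith
    rw [h2]; ring
  have hs := sig_hasDerivAt_zero p u
  have h2 := ((hasDerivAt_om h.sα hs (hasDerivAt_field (fY_smooth h hX) hs)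
    (sig'_hasDerivAt p u)).const_mul ε).neg
  simp only [sig_zero, sig'_zero, hY, om_zero_left] at h2
  have h3 := second_deriv_test h1 h2 (fun s => by
    have := hext _ (sig_mem hp hu s)
    simpa [sig_zero] using this)
  have h4 : dom α p u 0 u = 0 := by simp [dom]
  rw [h4] at h3
  linarith


/-! ### Circle actions -/

/-- A smooth circle action (of period one) on the unit sphere by strict contactomorphisms. -/
structure Act (α : E → E →L[ℝ] ℝ) (Φ : ℝ → E → E) : Prop where
  sm : ContDiff ℝ ∞ (fun z : ℝ × E => Φ z.1 z.2)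
  sph : ∀ t p, ip p p = 1 → ip (Φ t p) (Φ t p) = 1
  zero : ∀ p, ip p p = 1 → Φ 0 p = p
  add : ∀ s t p, ip p p = 1 → Φ (s + t) p = Φ s (Φ t p)
  one : ∀ p, ip p p = 1 → Φ 1 p = p
  inv : ∀ t p v, ip p p = 1 → ip p v = 0 → α (Φ t p) (fderiv ℝ (Φ t) p v) = α p v

/-- The total map of the action. -/
def tot (Φ : ℝ → E → E) (z : ℝ × E) : E := Φ z.1 z.2

/-- The generating vector field. -/
noncomputable def gen (Φ : ℝ → E → E) (p : E) : E := fderiv ℝ (tot Φ) (0, p) (1, 0)

variable {Φ : ℝ → E → E}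

lemma tot_smooth (h : Act α Φ) : ContDiff ℝ ∞ (tot Φ) := h.sm

lemma gen_smooth (h : Act α Φ) : ContDiff ℝ ∞ (gen Φ) := by
  have h1 : ContDiff ℝ ∞ (fderiv ℝ (tot Φ)) := (tot_smooth h).fderiv_right (by simp)
  have h2 : ContDiff ℝ ∞ (fun p : E => ((0 : ℝ), p)) := contDiff_const.prodMk contDiff_id
  exact (h1.comp h2).clm_apply contDiff_const

lemma time_deriv (h : Act α Φ) (t : ℝ) (p : E) :
    HasDerivAt (fun s => Φ s p) (fderiv ℝ (tot Φ) (t, p) (1, 0)) t := by
  have h1 : HasDerivAt (fun s : ℝ => (s, p)) ((1 : ℝ), (0 : E)) t :=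
    (hasDerivAt_id t).prodMk (hasDerivAt_const t p)
  exact (((tot_smooth h).differentiable (by simp)) (t, p)).hasFDerivAt.comp_hasDerivAt t h1

lemma space_fderiv (h : Act α Φ) (t : ℝ) (p v : E) :
    fderiv ℝ (Φ t) p v = fderiv ℝ (tot Φ) (t, p) (0, v) := by
  have h1 : HasFDerivAt (fun q : E => (t, q)) (ContinuousLinearMap.inr ℝ ℝ E) p :=
    hasFDerivAt_prodMk_right t p
  have h2 := (((tot_smooth h).differentiable (by simp)) (t, p)).hasFDerivAt.comp p h1
  have h3 : fderiv ℝ (Φ t) p = (fderiv ℝ (tot Φ) (t, p)).comp (ContinuousLinearMap.inr ℝ ℝ E) :=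
    h2.fderiv
  rw [h3]
  simp

lemma flow_deriv (h : Act α Φ) {p : E} (hp : ip p p = 1) (t : ℝ) :
    HasDerivAt (fun s => Φ s p) (gen Φ (Φ t p)) t := by
  have h1 := time_deriv h 0 (Φ t p)
  have h2 : HasDerivAt (fun s => Φ (s - t) (Φ t p)) (gen Φ (Φ t p)) t := by
    have h4 : HasDerivAt (fun s => Φ s (Φ t p)) (gen Φ (Φ t p)) (t - t) := by
      simpa [gen] using h1
    exact HasDerivAt.comp_sub_const t t h4
  refine h2.congr_of_eventuallyEq (Filter.Eventually.of_forall fun s => ?_)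
  have := h.add (s - t) t p hp
  simpa using this

lemma fderiv_tot_time (h : Act α Φ) {p : E} (hp : ip p p = 1) (t : ℝ) :
    fderiv ℝ (tot Φ) (t, p) (1, 0) = gen Φ (Φ t p) :=
  (time_deriv h t p).unique (flow_deriv h hp t)

lemma gen_tan (h : Act α Φ) {p : E} (hp : ip p p = 1) : ip p (gen Φ p) = 0 := by
  have h1 := flow_deriv h hp 0
  have h2 := hasDerivAt_ip h1 h1
  have h3 : (fun s => ip (Φ s p) (Φ s p)) = fun _ => (1 : ℝ) := by
    funext s; exact h.sph s p hp
  rw [h3] at h2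
  have h4 := h2.unique (hasDerivAt_const 0 (1:ℝ))
  rw [h.zero p hp] at h4
  have h5 := ip_comm p (gen Φ p)
  linarith

/-- The linearisation of the action at tangent vectors, when `Φ t` is the identity. -/
lemma space_id (h : Act α Φ) {t : ℝ} (ht : ∀ q, ip q q = 1 → Φ t q = q) {p v : E}
    (hp : ip p p = 1) (hv : ip p v = 0) : fderiv ℝ (tot Φ) (t, p) (0, v) = v := by
  have hs := sig_hasDerivAt_zero p v
  have h1 : HasDerivAt (fun s : ℝ => (t, sig p v s)) ((0 : ℝ), v) 0 :=
    (hasDerivAt_const 0 t).prodMk hs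
  have hF : HasFDerivAt (tot Φ) (fderiv ℝ (tot Φ) (t, sig p v 0)) (t, sig p v 0) :=
    (((tot_smooth h).differentiable (by simp)) (t, sig p v 0)).hasFDerivAt
  have h2 : HasDerivAt (fun s : ℝ => tot Φ (t, sig p v s))
      (fderiv ℝ (tot Φ) (t, sig p v 0) (0, v)) 0 :=
    HasFDerivAt.comp_hasDerivAt (f := fun s : ℝ => (t, sig p v s)) (0:ℝ) hF h1
  have h3 := h2.sub hs
  have h4 := deriv_zero_of_sphere (F := fun q => tot Φ (t, q) - q) hp hv
    (fun q hq => by simp [tot, ht q hq]) h3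
  rw [sig_zero] at h4
  exact sub_eq_zero.1 h4

/-- The linearised action solves the linearised equation of the generator. -/
lemma space_deriv (h : Act α Φ) {p v : E} (hp : ip p p = 1) (hv : ip p v = 0) (t : ℝ) :
    HasDerivAt (fun s => fderiv ℝ (tot Φ) (s, p) (0, v))
      (fderiv ℝ (gen Φ) (Φ t p) (fderiv ℝ (tot Φ) (t, p) (0, v))) t := by
  have hd : ContDiff ℝ ∞ (fderiv ℝ (tot Φ)) := (tot_smooth h).fderiv_right (by simp)
  have h1 : HasDerivAt (fun s : ℝ => (s, p)) ((1 : ℝ), (0 : E)) t :=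
    (hasDerivAt_id t).prodMk (hasDerivAt_const t p)
  have h2 : HasDerivAt (fun s => fderiv ℝ (tot Φ) (s, p))
      (fderiv ℝ (fderiv ℝ (tot Φ)) (t, p) (1, 0)) t :=
    ((hd.differentiable (by simp)) (t, p)).hasFDerivAt.comp_hasDerivAt t h1
  have h3 := h2.clm_apply (hasDerivAt_const t ((0 : ℝ), v))
  refine h3.congr_deriv ?_
  rw [map_zero, add_zero]
  have hsym : IsSymmSndFDerivAt ℝ (tot Φ) (t, p) := by
    apply ((tot_smooth h).contDiffAt (x := (t, p))).isSymmSndFDerivAt
    simpa using two_le_infty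
  rw [hsym (1, 0) (0, v)]
  -- differentiate the flow equation in the direction `v`
  have hs := sig_hasDerivAt_zero p v
  have k1 : HasDerivAt (fun s : ℝ => (t, sig p v s)) ((0 : ℝ), v) 0 :=
    (hasDerivAt_const 0 t).prodMk hs
  have k2 : HasDerivAt (fun s => fderiv ℝ (tot Φ) (t, sig p v s))
      (fderiv ℝ (fderiv ℝ (tot Φ)) (t, sig p v 0) (0, v)) 0 :=
    ((hd.differentiable (by simp)) (t, sig p v 0)).hasFDerivAt.comp_hasDerivAt 0 k1
  have k3 := k2.clm_apply (hasDerivAt_const (0:ℝ) ((1 : ℝ), (0 : E)))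
  have hF : HasFDerivAt (tot Φ) (fderiv ℝ (tot Φ) (t, sig p v 0)) (t, sig p v 0) :=
    (((tot_smooth h).differentiable (by simp)) (t, sig p v 0)).hasFDerivAt
  have k4 : HasDerivAt (fun s : ℝ => tot Φ (t, sig p v s))
      (fderiv ℝ (tot Φ) (t, sig p v 0) (0, v)) 0 :=
    HasFDerivAt.comp_hasDerivAt (f := fun s : ℝ => (t, sig p v s)) (0:ℝ) hF k1
  have k5 := k3.sub (hasDerivAt_field (gen_smooth h) k4)
  have k6 := deriv_zero_of_sphere
    (F := fun q => fderiv ℝ (tot Φ) (t, q) (1, 0) - gen Φ (tot Φ (t, q))) hp hv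
    (fun q hq => by
      rw [fderiv_tot_time h hq t]
      exact sub_self _) k5
  rw [sig_zero, map_zero, add_zero] at k6
  exact sub_eq_zero.1 k6

lemma gen_SF (hα : ContDiff ℝ ∞ α) (h : Act α Φ) : SF α (gen Φ) where
  sX := gen_smooth h
  tan := fun p hp => gen_tan h hp
  lie := by
    intro p hp v hv
    have h1 := hasDerivAt_alpha hα (flow_deriv h hp 0) (space_deriv h hp hv 0)
    have h2 : (fun s => α (Φ s p) (fderiv ℝ (tot Φ) (s, p) (0, v))) = fun _ => α p v := by
      funext s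
      rw [← space_fderiv h]
      exact h.inv s p v hp hv
    rw [h2] at h1
    have h3 := h1.unique (hasDerivAt_const 0 (α p v))
    rw [h.zero p hp, space_id h (fun q hq => h.zero q hq) hp hv] at h3
    exact h3


lemma sphere_compact : IsCompact {p : E | ip p p = 1} := by
  apply Metric.isCompact_of_isClosed_isBounded
  · have hc : Continuous fun p : E => ip p p := ip.continuous.clm_apply continuous_id
    exact isClosed_eq hc continuous_const
  · rw [isBounded_iff_forall_norm_le]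
    refine ⟨1, fun p hp => ?_⟩
    rw [pi_norm_le_iff_of_nonneg (by norm_num)]
    intro i
    have h1 : ip p p = 1 := hp
    rw [ip_self] at h1
    have h2 : p i ^ 2 ≤ ∑ j, p j ^ 2 :=
      Finset.single_le_sum (f := fun j => p j ^ 2) (fun j _ => sq_nonneg (p j)) (Finset.mem_univ i)
    rw [h1] at h2
    rw [Real.norm_eq_abs]
    exact (sq_le_one_iff_abs_le_one (p i)).1 h2

lemma sphere_nonempty : ∃ p : E, ip p p = 1 :=
  ⟨fun i => if i = 0 then 1 else 0, by simp [ip_apply]⟩

/-- There is an extremum of the Hamiltonian with nonzero value. -/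
lemma exists_ext (h : CD α R) (hΦ : Act α Φ) (hne : ∃ t p, ip p p = 1 ∧ Φ t p ≠ p) :
    ∃ (p : E) (ε : ℝ), ip p p = 1 ∧ ε ≠ 0 ∧ ham α (gen Φ) p ≠ 0 ∧
      ∀ q, ip q q = 1 → ε * ham α (gen Φ) q ≤ ε * ham α (gen Φ) p := by
  have hX := gen_SF h.sα hΦ
  have hc : ContinuousOn (ham α (gen Φ)) {p : E | ip p p = 1} :=
    (ham_smooth h hX).continuous.continuousOn
  obtain ⟨p, hp, hmax⟩ := sphere_compact.exists_isMaxOn sphere_nonempty hc
  obtain ⟨q, hq, hmin⟩ := sphere_compact.exists_isMinOn sphere_nonempty hc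
  by_cases h1 : ham α (gen Φ) p = 0
  · by_cases h2 : ham α (gen Φ) q = 0
    · exfalso
      have h0 : ∀ z, ip z z = 1 → ham α (gen Φ) z = 0 := by
        intro z hz
        have a1 : ham α (gen Φ) z ≤ ham α (gen Φ) p := hmax hz
        have a2 : ham α (gen Φ) q ≤ ham α (gen Φ) z := hmin hz
        linarith
      have hgen : ∀ z, ip z z = 1 → gen Φ z = 0 := by
        intro z hz
        have a1 := fY_zero_of_ext h hX one_ne_zero hz (fun w hw => by rw [h0 w hw, h0 z hz])
        rw [fY, h0 z hz, zero_smul, sub_zero] at a1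
        exact a1
      obtain ⟨t, z, hz, hzt⟩ := hne
      apply hzt
      have hd : ∀ s, HasDerivAt (fun s => Φ s z) 0 s := by
        intro s
        have := flow_deriv hΦ hz s
        rwa [hgen _ (hΦ.sph s z hz)] at this
      have hcst := is_const_of_deriv_eq_zero (f := fun s => Φ s z)
        (fun s => (hd s).differentiableAt) (fun s => (hd s).deriv) t 0
      have hcst' : Φ t z = Φ 0 z := hcst
      rw [hcst', hΦ.zero z hz]
    · refine ⟨q, -1, hq, by norm_num, h2, fun z hz => ?_⟩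
      have a2 : ham α (gen Φ) q ≤ ham α (gen Φ) z := hmin hz
      linarith
  · refine ⟨p, 1, hp, one_ne_zero, h1, fun z hz => ?_⟩
    have a1 : ham α (gen Φ) z ≤ ham α (gen Φ) p := hmax hz
    linarith

/-- The main theorem for circle actions. -/
theorem main_circle (h : CD α R) (hΦ : Act α Φ) (hne : ∃ t p, ip p p = 1 ∧ Φ t p ≠ p) :
    ∃ γ : ℝ → E, ∃ T : ℝ, 0 < T ∧ (∀ t, ip (γ t) (γ t) = 1) ∧
      (∀ t, HasDerivAt γ (R (γ t)) t) ∧ γ T = γ 0 ∧
      ∀ μ : ℝ, ∀ w : ℝ → E, ip (γ 0) (w 0) = 0 → w 0 ≠ 0 →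
        (∀ t, HasDerivAt w (fderiv ℝ R (γ t) (w t)) t) → w T = μ • w 0 → |μ| = 1 := by
  have hX := gen_SF h.sα hΦ
  obtain ⟨p, ε, hp, hε, hc, hext⟩ := exists_ext h hΦ hne
  set c := ham α (gen Φ) p with hcdef
  -- the Hamiltonian is constant along the orbit
  have hham : ∀ s, ham α (gen Φ) (Φ s p) = c := by
    intro s
    have hd : ∀ s, HasDerivAt (fun s => ham α (gen Φ) (Φ s p)) 0 s := by
      intro s
      have h1 : HasDerivAt (fun s => ham α (gen Φ) (Φ s p))
          (fderiv ℝ (ham α (gen Φ)) (Φ s p) (gen Φ (Φ s p))) s :=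
        HasFDerivAt.comp_hasDerivAt (f := fun s => Φ s p) s
          (((ham_smooth h hX).differentiable (by simp)) (Φ s p)).hasFDerivAt (flow_deriv hΦ hp s)
      rwa [ham_X h hX (hΦ.sph s p hp)] at h1
    have hcst := is_const_of_deriv_eq_zero (f := fun s => ham α (gen Φ) (Φ s p))
        (fun s => (hd s).differentiableAt) (fun s => (hd s).deriv) s 0
    have hcst' : ham α (gen Φ) (Φ s p) = ham α (gen Φ) (Φ 0 p) := hcst
    rw [hcst', hΦ.zero p hp]
  have hext' : ∀ s q, ip q q = 1 → ε * ham α (gen Φ) q ≤ ε * ham α (gen Φ) (Φ s p) := by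
    intro s q hq
    rw [hham s]
    exact hext q hq
  have hY : ∀ s, fY α R (gen Φ) (Φ s p) = 0 := fun s =>
    fY_zero_of_ext h hX hε (hΦ.sph s p hp) (hext' s)
  have hXR : ∀ s, gen Φ (Φ s p) = c • R (Φ s p) := by
    intro s
    have := hY s
    rw [fY, hham s] at this
    exact sub_eq_zero.1 this
  have hm1 : ∀ q, ip q q = 1 → Φ (-1) q = q := by
    intro q hq
    have h1 := hΦ.add 1 (-1) q hq
    rw [hΦ.one _ (hΦ.sph _ q hq)] at h1
    rw [← h1]
    simpa using hΦ.zero q hq
  have hT : 0 < |c| := abs_pos.2 hc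
  have hsign : |c| / c = 1 ∨ |c| / c = -1 := by
    rcases abs_choice c with h1 | h1
    · left; rw [h1]; exact div_self hc
    · right; rw [h1]; field_simp
  have hret : ∀ q, ip q q = 1 → Φ (|c| / c) q = q := by
    intro q hq
    rcases hsign with h1 | h1
    · rw [h1]; exact hΦ.one q hq
    · rw [h1]; exact hm1 q hq
  have hγ : ∀ t, HasDerivAt (fun t => Φ (t / c) p) (R (Φ (t / c) p)) t := by
    intro t
    have h1 : HasDerivAt (fun t : ℝ => t / c) (1 / c) t := (hasDerivAt_id t).div_const c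
    have h2 := HasDerivAt.scomp (h := fun t : ℝ => t / c) t (flow_deriv hΦ hp (t / c)) h1
    refine h2.congr_deriv ?_
    rw [hXR, smul_smul, one_div, inv_mul_cancel₀ hc, one_smul]
  refine ⟨fun t => Φ (t / c) p, |c|, hT, fun t => hΦ.sph _ p hp, hγ, ?_, ?_⟩
  · change Φ (|c| / c) p = Φ (0 / c) p
    rw [hret p hp, zero_div, hΦ.zero p hp]
  · intro μ w hw0 hwne hw hwT
    by_contra hμ
    have hper : Φ (|c| / c) p = Φ (0 / c) p := by
      rw [hret p hp, zero_div, hΦ.zero p hp]
    have hker := kernel_of_mult h hX (γ := fun t => Φ (t / c) p) (w := w) (T := |c|) (μ := μ)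
      (ε := ε) hT (fun t => hΦ.sph _ p hp) hγ hper (fun t => hY _) hε
      (fun t u hu => semi_of_ext h hX hε (hΦ.sph _ p hp) (hext' _) hu) hw0 hw hwT hμ
    have hwt := tan_of_sol h (γ := fun t => Φ (t / c) p) (fun t => hΦ.sph _ p hp) hγ hw hw0
    have hw0' : ip p (w 0) = 0 := by
      have := hw0
      simp only [zero_div] at this
      rwa [hΦ.zero p hp] at this
    -- compare with the linearised action
    have hdw : ∀ t, 0 ≤ t → fderiv ℝ R (Φ (t / c) p) (w t) =
        ((1 / c) • fderiv ℝ (gen Φ) (Φ (t / c) p)) (w t) := by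
      intro t ht
      have h1 := hker t ht
      rw [fY_fderiv h hX] at h1
      have h2 := fY_ker h hX (hΦ.sph (t / c) p hp) (hwt t ht)
      rw [hY, om_zero_left, zero_add] at h2
      rw [h2, zero_smul, zero_add, hham] at h1
      have h3 := sub_eq_zero.1 h1
      rw [smul_apply, h3, smul_smul, one_div, inv_mul_cancel₀ hc, one_smul]
    have hLc : Continuous fun t : ℝ => (1 / c) • fderiv ℝ (gen Φ) (Φ (t / c) p) := by
      have h1 : Continuous (fderiv ℝ (gen Φ)) := hX.sX.continuous_fderiv (by simp)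
      have h2 : Continuous fun t : ℝ => Φ (t / c) p :=
        continuous_iff_continuousAt.2 fun t => (hγ t).continuousAt
      have h3 : Continuous fun t : ℝ => fderiv ℝ (gen Φ) (Φ (t / c) p) := h1.comp h2
      exact h3.const_smul (1 / c)
    have hz := lin_zero hLc (z := fun t => w t - fderiv ℝ (tot Φ) (t / c, p) (0, w 0)) (by
      intro t ht
      have h1 : HasDerivAt (fun t : ℝ => t / c) (1 / c) t := (hasDerivAt_id t).div_const c
      have h2 := HasDerivAt.scomp (h := fun t : ℝ => t / c) t (space_deriv hΦ hp hw0' (t / c)) h1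
      refine ((hw t).sub h2).congr_deriv ?_
      rw [hdw t ht]
      simp only [smul_apply, map_sub]) (by
      rw [zero_div, space_id hΦ (fun q hq => hΦ.zero q hq) hp hw0', sub_self]) |c| hT.le
    have hz' : w |c| = w 0 := by
      have h1 := sub_eq_zero.1 hz
      rw [space_id hΦ hret hp hw0'] at h1
      exact h1
    rw [hwT] at hz'
    have h2 : (μ - 1) • w 0 = 0 := by rw [sub_smul, one_smul, hz', sub_self]
    rcases smul_eq_zero.1 h2 with h3 | h3
    · apply hμ
      have : μ = 1 := by linarith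
      rw [this, abs_one]
    · exact hwne h3

end Pool.Agent.Lib.MP_61e5a9_gt
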