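import Pool.Agent.Lib.MP_61e5a9_gt.Core

set_option autoImplicit false

namespace Pool.Agent.Lib.MP_61e5a9_gt

open scoped ContDiff

/-- A contact form on the unit sphere together with a smooth extension of its Reeb field. -/
structure CD (α : E → E →L[ℝ] ℝ) (R : E → E) : Prop where
  sα : ContDiff ℝ ∞ α
  sR : ContDiff ℝ ∞ R
  uniq : ∀ p, ip p p = 1 → ∀ z, ip p z = 0 → α p z = 0 →
    (∀ v, ip p v = 0 → om α p z v = 0) → z = 0
  tan : ∀ p, ip p p = 1 → ip p (R p) = 0
  one : ∀ p, ip p p = 1 → α p (R p) = 1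
  ker : ∀ p, ip p p = 1 → ∀ v, ip p v = 0 → om α p (R p) v = 0

variable {α : E → E →L[ℝ] ℝ} {R : E → E}

lemma contDiff_zero_fun : ContDiff ℝ ∞ (fun _ : E => (0 : ℝ)) := contDiff_const

lemma CD.lieR (h : CD α R) {p u v : E} (hp : ip p p = 1) (hu : ip p u = 0) (hv : ip p v = 0) :
    dom α p (R p) u v + om α p (fderiv ℝ R p u) v + om α p u (fderiv ℝ R p v) = 0 := by
  refine lie_dalpha h.sα h.sR (h := fun _ => (0 : ℝ)) contDiff_zero_fun ?_ hp hu hv
  intro q hq v hv
  rw [h.ker q hq v hv]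
  simp

lemma CD.oneR (h : CD α R) {p u : E} (hp : ip p p = 1) (hu : ip p u = 0) :
    fderiv ℝ α p u (R p) + α p (fderiv ℝ R p u) = 0 := by
  have hs := sig_hasDerivAt_zero p u
  have h1 := (hasDerivAt_alpha h.sα hs (hasDerivAt_field h.sR hs)).sub_const 1
  have h2 := deriv_zero_of_sphere (F := fun q => α q (R q) - 1) hp hu
    (fun q hq => by rw [h.one q hq]; ring) h1
  simpa [sig_zero] using h2

lemma CD.kerR (h : CD α R) {p u v : E} (hp : ip p p = 1) (hu : ip p u = 0) (hv : ip p v = 0) :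
    dom α p u (R p) v + om α p (fderiv ℝ R p u) v - ip u v * om α p (R p) p = 0 := by
  have h1 := ker_deriv h.sα h.sR (h := fun _ => (0 : ℝ)) contDiff_zero_fun (fun q hq v hv => by
    rw [h.ker q hq v hv]; simp) hp hu hv
  have h2 : fderiv ℝ (fun _ : E => (0:ℝ)) = fun _ => 0 := by
    funext q; simp
  rw [h2] at h1
  simpa using h1

/-- A vector field generating a flow by strict contactomorphisms. -/
structure SF (α : E → E →L[ℝ] ℝ) (X : E → E) : Prop where
  sX : ContDiff ℝ ∞ X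
  tan : ∀ p, ip p p = 1 → ip p (X p) = 0
  lie : ∀ p, ip p p = 1 → ∀ v, ip p v = 0 →
    fderiv ℝ α p (X p) v + α p (fderiv ℝ X p v) = 0

/-- The contact Hamiltonian `α(X)`. -/
noncomputable def ham (α : E → E →L[ℝ] ℝ) (X : E → E) (p : E) : ℝ := α p (X p)

variable {X : E → E}

lemma ham_smooth (h : CD α R) (hX : SF α X) : ContDiff ℝ ∞ (ham α X) :=
  h.sα.clm_apply hX.sX

lemma ham_fderiv (h : CD α R) (hX : SF α X) (p v : E) :
    fderiv ℝ (ham α X) p v = fderiv ℝ α p v (X p) + α p (fderiv ℝ X p v) := by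
  have hl : HasDerivAt (fun s : ℝ => p + s • v) v 0 := by
    have := ((hasDerivAt_id (0:ℝ)).smul_const v).const_add p
    simpa using this
  have h1 := hasDerivAt_alpha h.sα hl (hasDerivAt_field hX.sX hl)
  have h2 : HasDerivAt (fun s : ℝ => ham α X (p + s • v)) (fderiv ℝ (ham α X) (p + (0:ℝ) • v) v) 0 :=
    (((ham_smooth h hX).differentiable (by simp)) _).hasFDerivAt.comp_hasDerivAt 0 hl
  have h3 := h2.unique h1
  simpa using h3

lemma ham_ker (h : CD α R) (hX : SF α X) {p v : E} (hp : ip p p = 1) (hv : ip p v = 0) :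
    om α p (X p) v + fderiv ℝ (ham α X) p v = 0 := by
  rw [ham_fderiv h hX, om]
  have := hX.lie p hp v hv
  linarith

lemma lieX (h : CD α R) (hX : SF α X) {p u v : E} (hp : ip p p = 1) (hu : ip p u = 0)
    (hv : ip p v = 0) :
    dom α p (X p) u v + om α p (fderiv ℝ X p u) v + om α p u (fderiv ℝ X p v) = 0 :=
  lie_dalpha h.sα hX.sX (ham_smooth h hX) (fun _ hq _ hv => ham_ker h hX hq hv) hp hu hv

/-- The Reeb field commutes with `X`. -/
lemma comm_XR (h : CD α R) (hX : SF α X) {p : E} (hp : ip p p = 1) :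
    fderiv ℝ X p (R p) = fderiv ℝ R p (X p) := by
  have hR := h.tan p hp
  have hXt := hX.tan p hp
  have : fderiv ℝ X p (R p) - fderiv ℝ R p (X p) = 0 := by
    apply h.uniq p hp
    · have h1 := tan_deriv hX.sX hX.tan hp hR
      have h2 := tan_deriv h.sR h.tan hp hXt
      have h3 := ip_comm (R p) (X p)
      rw [map_sub]
      linarith
    · have h1 := hX.lie p hp _ hR
      have h2 := h.oneR hp hXt
      rw [map_sub]
      linarith
    · intro v hv
      have h1 := lieX h hX hp hR hv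
      have h2 := h.kerR hp hXt hv
      have h3 := tan_deriv hX.sX hX.tan hp hv
      have h4 : ip p (fderiv ℝ X p v + ip v (X p) • p) = 0 := by
        rw [map_add, map_smul, smul_eq_mul, hp]; linarith
      have h5 := h.ker p hp _ h4
      rw [om_add_right, om_smul_right] at h5
      have h6 := ip_comm (X p) v
      rw [om_sub_left]
      rw [h6] at h2
      linarith
  exact sub_eq_zero.1 this

/-- The field `Y = X - f R`. -/
noncomputable def fY (α : E → E →L[ℝ] ℝ) (R X : E → E) (p : E) : E := X p - ham α X p • R p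

lemma fY_smooth (h : CD α R) (hX : SF α X) : ContDiff ℝ ∞ (fY α R X) :=
  hX.sX.sub ((ham_smooth h hX).smul h.sR)

lemma fY_fderiv (h : CD α R) (hX : SF α X) (p v : E) :
    fderiv ℝ (fY α R X) p v =
      fderiv ℝ X p v - (fderiv ℝ (ham α X) p v • R p + ham α X p • fderiv ℝ R p v) := by
  have hl : HasDerivAt (fun s : ℝ => p + s • v) v 0 := by
    have := ((hasDerivAt_id (0:ℝ)).smul_const v).const_add p
    simpa using this
  have hf : HasDerivAt (fun s : ℝ => ham α X (p + s • v)) (fderiv ℝ (ham α X) (p + (0:ℝ) • v) v) 0 :=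
    (((ham_smooth h hX).differentiable (by simp)) _).hasFDerivAt.comp_hasDerivAt 0 hl
  have h1 := (hasDerivAt_field hX.sX hl).sub (hf.smul (hasDerivAt_field h.sR hl))
  have h2 := hasDerivAt_field (fY_smooth h hX) hl
  have h3 := h2.unique h1
  simp only [zero_smul, add_zero] at h3
  rw [h3, add_comm (fderiv ℝ (ham α X) p v • R p)]

lemma fY_tan (h : CD α R) (hX : SF α X) {p : E} (hp : ip p p = 1) : ip p (fY α R X p) = 0 := by
  simp [fY, hX.tan p hp, h.tan p hp]

lemma fY_alpha (h : CD α R) {p : E} (hp : ip p p = 1) : α p (fY α R X p) = 0 := by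
  simp [fY, h.one p hp, ham]

lemma fY_ker (h : CD α R) (hX : SF α X) {p v : E} (hp : ip p p = 1) (hv : ip p v = 0) :
    om α p (fY α R X p) v + fderiv ℝ (ham α X) p v = 0 := by
  rw [fY, om_sub_left, om_smul_left, h.ker p hp v hv]
  have := ham_ker h hX hp hv
  linarith

lemma fY_lie (h : CD α R) (hX : SF α X) {p u v : E} (hp : ip p p = 1) (hu : ip p u = 0)
    (hv : ip p v = 0) :
    dom α p (fY α R X p) u v + om α p (fderiv ℝ (fY α R X) p u) v
      + om α p u (fderiv ℝ (fY α R X) p v) = 0 :=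
  lie_dalpha h.sα (fY_smooth h hX) (ham_smooth h hX) (fun _ hq _ hv => fY_ker h hX hq hv) hp hu hv

lemma fY_alpha_deriv (h : CD α R) (hX : SF α X) {p u : E} (hp : ip p p = 1) (hu : ip p u = 0) :
    fderiv ℝ α p u (fY α R X p) + α p (fderiv ℝ (fY α R X) p u) = 0 := by
  have hs := sig_hasDerivAt_zero p u
  have h1 := hasDerivAt_alpha h.sα hs (hasDerivAt_field (fY_smooth h hX) hs)
  have h2 := deriv_zero_of_sphere (F := fun q => α q (fY α R X q)) hp hu
    (fun q hq => fY_alpha h hq) h1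
  simpa [sig_zero] using h2

lemma ham_R (h : CD α R) (hX : SF α X) {p : E} (hp : ip p p = 1) :
    fderiv ℝ (ham α X) p (R p) = 0 := by
  have h1 := ham_ker h hX hp (h.tan p hp)
  have h2 := h.ker p hp _ (hX.tan p hp)
  rw [om_swap] at h1
  linarith

lemma ham_X (h : CD α R) (hX : SF α X) {p : E} (hp : ip p p = 1) :
    fderiv ℝ (ham α X) p (X p) = 0 := by
  have h1 := ham_ker h hX hp (hX.tan p hp)
  rw [om_self] at h1
  linarith

/-- `Y` commutes with the Reeb field. -/
lemma comm_YR (h : CD α R) (hX : SF α X) {p : E} (hp : ip p p = 1) :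
    fderiv ℝ (fY α R X) p (R p) = fderiv ℝ R p (fY α R X p) := by
  rw [fY_fderiv h hX, ham_R h hX hp, comm_XR h hX hp, fY, map_sub, map_smul]
  simp

/-- The linearisation of `Y` along its zeros intertwines the linearised Reeb flow. -/
lemma comm_DY (h : CD α R) (hX : SF α X) {p u : E} (hp : ip p p = 1) (hu : ip p u = 0)
    (hY : fY α R X p = 0) :
    fderiv ℝ (fderiv ℝ (fY α R X)) p (R p) u + fderiv ℝ (fY α R X) p (fderiv ℝ R p u) =
      fderiv ℝ R p (fderiv ℝ (fY α R X) p u) := by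
  have hs := sig_hasDerivAt_zero p u
  have hYs := fY_smooth h hX
  have hdY : ContDiff ℝ ∞ (fderiv ℝ (fY α R X)) := hYs.fderiv_right (by simp)
  have hdR : ContDiff ℝ ∞ (fderiv ℝ R) := h.sR.fderiv_right (by simp)
  have h1 : HasDerivAt (fun s => fderiv ℝ (fY α R X) (sig p u s))
      (fderiv ℝ (fderiv ℝ (fY α R X)) (sig p u 0) u) 0 :=
    ((hdY.differentiable (by simp)) (sig p u 0)).hasFDerivAt.comp_hasDerivAt 0 hs
  have h2 : HasDerivAt (fun s => fderiv ℝ R (sig p u s))
      (fderiv ℝ (fderiv ℝ R) (sig p u 0) u) 0 :=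
    ((hdR.differentiable (by simp)) (sig p u 0)).hasFDerivAt.comp_hasDerivAt 0 hs
  have h3 := (h1.clm_apply (hasDerivAt_field h.sR hs)).sub
    (h2.clm_apply (hasDerivAt_field hYs hs))
  have h4 := deriv_zero_of_sphere
    (F := fun q => fderiv ℝ (fY α R X) q (R q) - fderiv ℝ R q (fY α R X q)) hp hu
    (fun q hq => by rw [comm_YR h hX hq, sub_self]) h3
  simp only [sig_zero, hY, map_zero, zero_add] at h4
  have hsym : IsSymmSndFDerivAt ℝ (fY α R X) p := by
    apply (hYs.contDiffAt (x := p)).isSymmSndFDerivAt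
    simpa using two_le_infty
  rw [hsym (R p) u]
  exact sub_eq_zero.1 h4

/-- Linear ODEs with zero initial condition. -/
lemma lin_zero {V : Type*} [NormedAddCommGroup V] [NormedSpace ℝ V] {L : ℝ → V →L[ℝ] V}
    (hL : Continuous L) {z : ℝ → V} (hz : ∀ t, 0 ≤ t → HasDerivAt z (L t (z t)) t)
    (h0 : z 0 = 0) : ∀ t, 0 ≤ t → z t = 0 := by
  intro t ht
  obtain ⟨K, hK⟩ := (isCompact_Icc (a := (0:ℝ)) (b := t)).exists_bound_of_continuousOn
    hL.continuousOn
  refine eq_zero_of_abs_deriv_le_mul_abs_self_of_eq_zero_right (K := K) (a := 0) (b := t)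
    (f := z) (f' := fun s => L s (z s)) ?_ ?_ h0 ?_ t ⟨ht, le_refl t⟩
  · exact fun s hs => (hz s hs.1).continuousAt.continuousWithinAt
  · exact fun s hs => (hz s hs.1).hasDerivWithinAt
  · intro s hs
    exact (L s).le_of_opNorm_le (hK s ⟨hs.1, hs.2.le⟩) (z s)

/-- Solutions of the linearised equation stay tangent to the sphere. -/
lemma tan_of_sol (h : CD α R) {γ w : ℝ → E} (hS : ∀ t, ip (γ t) (γ t) = 1)
    (hγ : ∀ t, HasDerivAt γ (R (γ t)) t)
    (hw : ∀ t, HasDerivAt w (fderiv ℝ R (γ t) (w t)) t) (h0 : ip (γ 0) (w 0) = 0) :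
    ∀ t, 0 ≤ t → ip (γ t) (w t) = 0 := by
  have hγc : Continuous γ := continuous_iff_continuousAt.2 fun t => (hγ t).continuousAt
  have hdR : Continuous (fderiv ℝ R) := h.sR.continuous_fderiv (by simp)
  have hk : Continuous (fun t => ip (γ t) (fderiv ℝ R (γ t) (γ t))) := by
    have h1 : Continuous fun t => fderiv ℝ R (γ t) (γ t) := (hdR.comp hγc).clm_apply hγc
    exact (ip.continuous.comp hγc).clm_apply h1
  refine lin_zero (L := fun t => (ip (γ t) (fderiv ℝ R (γ t) (γ t))) • ContinuousLinearMap.id ℝ ℝ)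
    (hk.smul continuous_const) (z := fun t => ip (γ t) (w t)) ?_ h0
  intro t _
  refine (hasDerivAt_ip (hγ t) (hw t)).congr_deriv ?_
  set p := γ t with hp
  set n := ip p (w t) with hn
  have hpp : ip p p = 1 := hS t
  have hu : ip p (w t - n • p) = 0 := by simp [hpp, hn]
  have h1 := tan_deriv h.sR h.tan hpp hu
  have h2 := h.tan p hpp
  have h3 := ip_comm (R p) p
  simp only [map_sub, map_smul, sub_apply, smul_apply, smul_eq_mul, h2,
    mul_zero, sub_zero] at h1
  have h4 := ip_comm (R p) (w t)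
  simp only [smul_apply, ContinuousLinearMap.id_apply, smul_eq_mul]
  linarith

/-- `dα` of two tangent solutions is constant. -/
lemma om_const (h : CD α R) {γ w z : ℝ → E} (hS : ∀ t, ip (γ t) (γ t) = 1)
    (hγ : ∀ t, HasDerivAt γ (R (γ t)) t)
    (hw : ∀ t, HasDerivAt w (fderiv ℝ R (γ t) (w t)) t)
    (hz : ∀ t, 0 ≤ t → HasDerivAt z (fderiv ℝ R (γ t) (z t)) t)
    (hwt : ∀ t, 0 ≤ t → ip (γ t) (w t) = 0) (hzt : ∀ t, 0 ≤ t → ip (γ t) (z t) = 0) :
    ∀ t, 0 ≤ t → om α (γ t) (z t) (w t) = om α (γ 0) (z 0) (w 0) := by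
  intro t ht
  have hd : ∀ s, 0 ≤ s → HasDerivAt (fun s => om α (γ s) (z s) (w s)) 0 s := by
    intro s hs
    refine (hasDerivAt_om h.sα (hγ s) (hz s hs) (hw s)).congr_deriv ?_
    exact h.lieR (hS s) (hzt s hs) (hwt s hs)
  have := constant_of_has_deriv_right_zero (f := fun s => om α (γ s) (z s) (w s)) (a := 0) (b := t)
    (fun s hs => (hd s hs.1).continuousAt.continuousWithinAt)
    (fun s hs => (hd s hs.1).hasDerivWithinAt) t ⟨ht, le_refl t⟩
  exact this

end Pool.Agent.Lib.MP_61e5a9_gt
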